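import Mathlib

/-!
# Norms modulo a prime
-/

set_option autoImplicit false
set_option linter.style.haveILetI false

namespace Pool.Agent.K7.H56.P

/-- **Norms modulo an unramified prime.** Every class is the class of a norm. -/
theorem exists_norm_mod {R A : Type} [CommRing R] [CommRing A] [Algebra R A] {n : ℕ}
    (b : Module.Basis (Fin n) R A) (t : R) (hm : (Ideal.span {t}).IsMaximal) (p q : Ideal A)
    (hpm : p.IsMaximal) (hfin : Finite (A ⧸ p)) (hpq : IsCoprime p q)
    (h : p ⊓ q = Ideal.span {algebraMap R A t}) (c : R) :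
    ∃ β : A, ∃ s : R, Algebra.norm R β = c + t * s := by
  classical
  set m : Ideal R := Ideal.span {t} with hmd
  let : Field (R ⧸ m) := Ideal.Quotient.field m
  let : Field (A ⧸ p) := Ideal.Quotient.field p
  have htp : algebraMap R A t ∈ p := by
    have : algebraMap R A t ∈ p ⊓ q := by rw [h]; exact Ideal.mem_span_singleton_self _
    exact this.1
  have htq : algebraMap R A t ∈ q := by
    have : algebraMap R A t ∈ p ⊓ q := by rw [h]; exact Ideal.mem_span_singleton_self _
    exact this.2
  have hp : m ≤ p.comap (algebraMap R A) := by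
    rw [hmd, Ideal.span_singleton_le_iff_mem]
    exact htp
  have hq : m ≤ q.comap (algebraMap R A) := by
    rw [hmd, Ideal.span_singleton_le_iff_mem]
    exact htq
  let ap : Algebra (R ⧸ m) (A ⧸ p) := (Ideal.quotientMap p (algebraMap R A) hp).toAlgebra
  let aq : Algebra (R ⧸ m) (A ⧸ q) := (Ideal.quotientMap q (algebraMap R A) hq).toAlgebra
  have sp : ∀ (x : R) (y : A), (Ideal.Quotient.mk m x) • (Ideal.Quotient.mk p y) =
      Ideal.Quotient.mk p (x • y) := by
    intro x y
    rw [Algebra.smul_def, Algebra.smul_def, map_mul]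
    rfl
  have sq : ∀ (x : R) (y : A), (Ideal.Quotient.mk m x) • (Ideal.Quotient.mk q y) =
      Ideal.Quotient.mk q (x • y) := by
    intro x y
    rw [Algebra.smul_def, Algebra.smul_def, map_mul]
    rfl
  set w : Fin n → (A ⧸ p) × (A ⧸ q) := fun i => (Ideal.Quotient.mk p (b i), Ideal.Quotient.mk q (b i))
    with hw
  have hsum : ∀ x : Fin n → R, ∑ i, (Ideal.Quotient.mk m (x i)) • w i =
      (Ideal.Quotient.mk p (∑ i, x i • b i), Ideal.Quotient.mk q (∑ i, x i • b i)) := by
    intro x
    refine Prod.ext ?_ ?_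
    · rw [Prod.fst_sum, map_sum]
      exact Finset.sum_congr rfl fun i _ => sp _ _
    · show _ = Ideal.Quotient.mk q (∑ i, x i • b i)
      rw [Prod.snd_sum, map_sum]
      exact Finset.sum_congr rfl fun i _ => sq _ _
  have hli : LinearIndependent (R ⧸ m) w := by
    rw [Fintype.linearIndependent_iff]
    intro g hg
    choose x hx using fun i => Ideal.Quotient.mk_surjective (I := m) (g i)
    have h1 := hsum x
    simp only [hx] at h1
    rw [hg] at h1
    have h2 : (∑ i, x i • b i) ∈ p ⊓ q := by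
      refine ⟨?_, ?_⟩
      · have := congrArg Prod.fst h1
        exact Ideal.Quotient.eq_zero_iff_mem.1 this.symm
      · have := congrArg Prod.snd h1
        exact Ideal.Quotient.eq_zero_iff_mem.1 this.symm
    rw [h, Ideal.mem_span_singleton] at h2
    obtain ⟨y, hy⟩ := h2
    intro i
    rw [← hx i, Ideal.Quotient.eq_zero_iff_mem, hmd, Ideal.mem_span_singleton]
    refine ⟨b.repr y i, ?_⟩
    have h3 : b.repr (∑ i, x i • b i) i = b.repr (algebraMap R A t * y) i := by rw [hy]
    rw [← Algebra.smul_def, map_smul, Finsupp.smul_apply, smul_eq_mul,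
      b.repr_sum_self] at h3
    exact h3
  have hcrt : ∀ u v : A, ∃ z : A, Ideal.Quotient.mk p z = Ideal.Quotient.mk p u ∧
      Ideal.Quotient.mk q z = Ideal.Quotient.mk q v := by
    intro u v
    obtain ⟨e, he, f, hf, hef⟩ := Ideal.isCoprime_iff_exists.1 hpq
    refine ⟨f * u + e * v, ?_, ?_⟩
    · rw [Ideal.Quotient.eq]
      have e1 : f * u + e * v - u = e * (v - u) := by linear_combination u * hef
      rw [e1]
      exact p.mul_mem_right _ he
    · rw [Ideal.Quotient.eq]
      have e1 : f * u + e * v - v = f * (u - v) := by linear_combination v * hef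
      rw [e1]
      exact q.mul_mem_right _ hf
  have hsp : ⊤ ≤ Submodule.span (R ⧸ m) (Set.range w) := by
    rintro ⟨z1, z2⟩ _
    obtain ⟨u, rfl⟩ := Ideal.Quotient.mk_surjective z1
    obtain ⟨v, rfl⟩ := Ideal.Quotient.mk_surjective z2
    obtain ⟨z, hz1, hz2⟩ := hcrt u v
    rw [← hz1, ← hz2]
    have h1 := hsum (fun i => b.repr z i)
    rw [b.sum_repr] at h1
    rw [← h1]
    exact Submodule.sum_mem _ fun i _ => Submodule.smul_mem _ _
      (Submodule.subset_span ⟨i, rfl⟩)
  set bw := Module.Basis.mk hli hsp with hbw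
  have hbwi : ∀ i, bw i = w i := fun i => Module.Basis.mk_apply hli hsp i
  -- the norm of the diagonal element
  have hnorm : ∀ x : A, Algebra.norm (R ⧸ m)
      ((Ideal.Quotient.mk p x, Ideal.Quotient.mk q x) : (A ⧸ p) × (A ⧸ q)) =
      Ideal.Quotient.mk m (Algebra.norm R x) := by
    intro x
    rw [Algebra.norm_eq_matrix_det bw, Algebra.norm_eq_matrix_det b, RingHom.map_det]
    congr 1
    ext i j
    rw [RingHom.mapMatrix_apply, Matrix.map_apply, Algebra.leftMulMatrix_eq_repr_mul,
      Algebra.leftMulMatrix_eq_repr_mul, hbwi]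
    have h1 : ((Ideal.Quotient.mk p x, Ideal.Quotient.mk q x) : (A ⧸ p) × (A ⧸ q)) * w j =
        ∑ k, (Ideal.Quotient.mk m (b.repr (x * b j) k)) • bw k := by
      simp only [hbwi]
      rw [hsum, b.sum_repr]
      refine Prod.ext ?_ ?_
      · show Ideal.Quotient.mk p x * Ideal.Quotient.mk p (b j) = _
        rw [← map_mul]
      · show Ideal.Quotient.mk q x * Ideal.Quotient.mk q (b j) = _
        rw [← map_mul]
    rw [h1, bw.repr_sum_self]
  -- the norm of a pair
  have hfree : Module.Finite (R ⧸ m) (A ⧸ q) := by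
    have : Module.Finite (R ⧸ m) ((A ⧸ p) × (A ⧸ q)) := Module.Finite.of_basis bw
    exact Module.Finite.of_surjective (LinearMap.snd (R ⧸ m) (A ⧸ p) (A ⧸ q))
      LinearMap.snd_surjective
  have hfree' : Module.Finite (R ⧸ m) (A ⧸ p) := by
    have : Module.Finite (R ⧸ m) ((A ⧸ p) × (A ⧸ q)) := Module.Finite.of_basis bw
    exact Module.Finite.of_surjective (LinearMap.fst (R ⧸ m) (A ⧸ p) (A ⧸ q))
      LinearMap.fst_surjective
  have hprod : ∀ (x : A ⧸ p) (y : A ⧸ q), Algebra.norm (R ⧸ m) ((x, y) : (A ⧸ p) × (A ⧸ q)) =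
      Algebra.norm (R ⧸ m) x * Algebra.norm (R ⧸ m) y := by
    intro x y
    rw [Algebra.norm_apply, Algebra.norm_apply, Algebra.norm_apply, ← LinearMap.det_prodMap]
    rfl
  obtain ⟨g, hg⟩ := FiniteField.norm_surjective (R ⧸ m) (A ⧸ p) (Ideal.Quotient.mk m c)
  obtain ⟨g', rfl⟩ := Ideal.Quotient.mk_surjective g
  obtain ⟨β, hβ1, hβ2⟩ := hcrt g' 1
  have h1 := hnorm β
  rw [hβ1, hβ2, hprod, hg, map_one, map_one, mul_one] at h1
  have h2 := Ideal.Quotient.eq.1 h1.symm
  rw [hmd, Ideal.mem_span_singleton] at h2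
  obtain ⟨s, hs⟩ := h2
  exact ⟨β, s, by linear_combination hs⟩

end Pool.Agent.K7.H56.P
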