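import Pool.Agent.K7.H56.P.A
import Pool.Agent.K7.H56.Cy
import Pool.Agent.K7.H56.T21
import Pool.Agent.K7.H73.GN.Geo

/-!
# Elements with cyclic residue ring congruent to one
-/

set_option autoImplicit false
set_option linter.unusedSectionVars false
set_option linter.style.haveILetI false

open Complex Polynomial NumberField IsDedekindDomain

namespace Pool.Agent.K7.H56.P

open Pool.Agent.K7.H56
open Pool.Agent.Y688 Pool.Agent.W192.HK Pool.Agent.TH936.CM Pool.Agent.R430 Pool.Agent.Y688.HF H667R3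

/-- the ideal generated by two is the product of two coprime ideals, the first maximal -/
lemma unr2_split {N : Type} [Field N] [NumberField N] (hU : Unr2 N) : ∃ p q : Ideal (𝓞 N),
    p.IsMaximal ∧ p ≠ ⊥ ∧ IsCoprime p q ∧ p ⊓ q = Ideal.span {(2 : 𝓞 N)} := by
  have h2 : ¬ IsUnit (2 : 𝓞 N) := by
    intro h
    have h1 := h.map (Algebra.norm ℤ)
    have h3 := Algebra.norm_algebraMap_of_basis (RingOfIntegers.basis N) (2 : ℤ)
    rw [map_ofNat] at h3
    rw [h3, isUnit_pow_iff] at h1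
    · exact absurd (Int.isUnit_iff.1 h1) (by decide)
    · rw [← Module.finrank_eq_card_basis (RingOfIntegers.basis N), RingOfIntegers.rank]
      exact Module.finrank_pos.ne'
  obtain ⟨p, hp, hle⟩ := Ideal.exists_le_maximal (Ideal.span {(2 : 𝓞 N)})
    (fun h => h2 (Ideal.span_singleton_eq_top.1 h))
  have h20 : (2 : 𝓞 N) ≠ 0 := two_ne_zero
  have hp2 : (2 : 𝓞 N) ∈ p := hle (Ideal.mem_span_singleton_self _)
  have hp0 : p ≠ ⊥ := by
    rintro rfl
    exact h20 ((Submodule.mem_bot _).1 hp2)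
  let v : HeightOneSpectrum (𝓞 N) := ⟨p, hp.isPrime, hp0⟩
  have hv := hU v (by exact_mod_cast hp2)
  obtain ⟨q, hq⟩ := Ideal.dvd_iff_le.2 hle
  have hpq : ¬ q ≤ p := by
    intro h
    obtain ⟨q', rfl⟩ := Ideal.dvd_iff_le.2 h
    have h4 : v.asIdeal ^ 2 ∣ Ideal.span {(2 : 𝓞 N)} := ⟨q', by rw [hq, pow_two, mul_assoc]⟩
    rw [← v.intValuation_le_pow_iff_dvd, ← v.valuation_of_algebraMap (K := N)] at h4
    have h5 : v.valuation N ((2 : 𝓞 N) : N) = v.valuation N 2 := by
      congr 1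
    rw [h5, hv, WithZero.exp_le_exp] at h4
    norm_num at h4
  have hcop : IsCoprime p q := by
    rw [Ideal.isCoprime_iff_sup_eq]
    by_contra h
    have h5 : p = p ⊔ q := hp.eq_of_le h le_sup_left
    exact hpq (by rw [h5]; exact le_sup_right)
  refine ⟨p, q, hp, hp0, hcop, ?_⟩
  rw [hq]
  exact (Ideal.mul_eq_inf_of_isCoprime hcop).symm

/-- a polynomial of small degree is not identically zero modulo a prime -/
lemma exists_nz {P : ℤ[X]} (hP : P.Monic) {q : ℕ} (hq : q.Prime) (hd : P.natDegree < q) {M : ℕ}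
    (hM : ¬ q ∣ M) (c : ℕ) : ∃ t : ℕ, ¬ (q : ℤ) ∣ P.eval ((c + M * t : ℕ) : ℤ) := by
  haveI := Fact.mk hq
  set Q : (ZMod q)[X] := P.map (Int.castRingHom (ZMod q)) with hQ
  have hQm : Q.Monic := hP.map _
  have hQd : Q.natDegree = P.natDegree := hP.natDegree_map _
  have hex : ∃ z : ZMod q, Q.eval z ≠ 0 := by
    by_contra h
    push Not at h
    have := Polynomial.eq_zero_of_natDegree_lt_card_of_eval_eq_zero Q
      (f := fun z : ZMod q => z) Function.injective_id h (by rw [ZMod.card, hQd]; exact hd)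
    exact hQm.ne_zero this
  obtain ⟨z, hz⟩ := hex
  have hM0 : (M : ZMod q) ≠ 0 := by
    rw [Ne, ZMod.natCast_eq_zero_iff]
    exact hM
  refine ⟨((z - c) * (M : ZMod q)⁻¹).val, fun h => hz ?_⟩
  have h1 := (ZMod.intCast_zmod_eq_zero_iff_dvd _ q).2 h
  have h2 : ((P.eval ((c + M * ((z - c) * (M : ZMod q)⁻¹).val : ℕ) : ℤ) : ℤ) : ZMod q) =
      Q.eval z := by
    have h3 := Polynomial.eval₂_at_apply (p := P) (Int.castRingHom (ZMod q))
      ((c + M * ((z - c) * (M : ZMod q)⁻¹).val : ℕ) : ℤ)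
    rw [eq_intCast, eq_intCast] at h3
    rw [hQ, ← Polynomial.eval₂_eq_eval_map, ← h3]
    congr 1
    push_cast
    rw [ZMod.natCast_val, ZMod.cast_id]
    field_simp
    ring
  rw [← h2]
  exact h1

/-- avoiding several primes -/
lemma exists_good {P : ℤ[X]} (hP : P.Monic) {M : ℕ} (S : Finset ℕ)
    (hS : ∀ q ∈ S, q.Prime ∧ P.natDegree < q ∧ ¬ q ∣ M) :
    ∃ c : ℕ, M ∣ c ∧ ∀ q ∈ S, ¬ (q : ℤ) ∣ P.eval (c : ℤ) := by
  classical
  induction S using Finset.induction_on with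
  | empty => exact ⟨0, dvd_zero _, by simp⟩
  | insert q S hqS ih =>
    obtain ⟨c, hc, hcS⟩ := ih fun q' h => hS q' (Finset.mem_insert_of_mem h)
    obtain ⟨hq, hqd, hqM⟩ := hS q (Finset.mem_insert_self _ _)
    have hM : ¬ q ∣ M * ∏ q' ∈ S, q' := by
      rw [hq.dvd_mul, not_or]
      refine ⟨hqM, fun h => ?_⟩
      obtain ⟨q', hq', h1⟩ := (hq.prime.dvd_finsetProd_iff _).1 h
      have h2 := (Nat.prime_dvd_prime_iff_eq hq (hS q' (Finset.mem_insert_of_mem hq')).1).1 h1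
      exact hqS (h2 ▸ hq')
    obtain ⟨t, ht⟩ := exists_nz hP hq hqd hM c
    refine ⟨c + M * (∏ q' ∈ S, q') * t, ?_, ?_⟩
    · exact dvd_add hc ((Dvd.intro _ rfl).mul_right _)
    · intro q' hq'
      rcases Finset.mem_insert.1 hq' with rfl | hq'
      · exact ht
      · intro h
        apply hcS q' hq'
        have h1 : (((c + M * (∏ q' ∈ S, q') * t : ℕ) : ℤ) - (c : ℤ)) ∣
            P.eval ((c + M * (∏ q' ∈ S, q') * t : ℕ) : ℤ) - P.eval (c : ℤ) :=
          Polynomial.sub_dvd_eval_sub _ _ _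
        have h2 : (q' : ℤ) ∣ (((c + M * (∏ q' ∈ S, q') * t : ℕ) : ℤ) - (c : ℤ)) := by
          have e : (((c + M * (∏ q' ∈ S, q') * t : ℕ) : ℤ) - (c : ℤ)) =
              ((M * (∏ q' ∈ S, q') * t : ℕ) : ℤ) := by
            push_cast
            ring
          rw [e]
          exact_mod_cast ((Finset.dvd_prod_of_mem _ hq').mul_left M).mul_right t
        have h3 := dvd_sub h (h2.trans h1)
        rwa [sub_sub_cancel] at h3

/-- the separating translate -/
lemma exists_sep2 {r : ℕ} {A : Type} [CommRing A] [Algebra RR A] (D : GN A r) (α θ : A)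
    (hθ : Function.Injective fun i => D.σ i θ) {m : ℕ} (hm : m ≠ 0) :
    ∃ t : ℕ, Function.Injective fun i => D.σ i (α + (m : A) * ((t : A) * θ)) := by
  classical
  set f : Fin (r + 1) → Fin (r + 1) → ℂ[X] := fun i j =>
    C (D.σ i α - D.σ j α) + C (m * (D.σ i θ - D.σ j θ)) * X with hf
  have hf0 : ∀ i j, i ≠ j → f i j ≠ 0 := by
    intro i j hij h0
    have h1 := congrArg (fun p => coeff p 1) h0
    simp only [hf, coeff_add, coeff_C_mul, coeff_X_one, coeff_zero, coeff_C] at h1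
    rw [if_neg one_ne_zero, zero_add, mul_one] at h1
    rcases mul_eq_zero.1 h1 with h2 | h2
    · exact hm (by exact_mod_cast h2)
    · exact hij (hθ (sub_eq_zero.1 h2))
  set g : ℂ[X] := ∏ i, ∏ j, if i = j then 1 else f i j with hg
  have hg0 : g ≠ 0 := by
    rw [hg, Finset.prod_ne_zero_iff]
    intro i _
    rw [Finset.prod_ne_zero_iff]
    intro j _
    split_ifs with h
    · exact one_ne_zero
    · exact hf0 i j h
  have hex : ∃ t : ℕ, g.eval (t : ℂ) ≠ 0 := by
    by_contra h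
    push Not at h
    apply hg0
    refine Polynomial.eq_zero_of_infinite_isRoot g ?_
    refine Set.Infinite.mono (s := Set.range fun t : ℕ => (t : ℂ)) ?_
      (Set.infinite_range_of_injective Nat.cast_injective)
    rintro _ ⟨t, rfl⟩
    exact h t
  obtain ⟨t, ht⟩ := hex
  refine ⟨t, fun i j hij => ?_⟩
  by_contra hne
  apply ht
  rw [hg, eval_prod]
  refine Finset.prod_eq_zero (Finset.mem_univ i) ?_
  rw [eval_prod]
  refine Finset.prod_eq_zero (Finset.mem_univ j) ?_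
  rw [if_neg hne, hf, eval_add, eval_C, eval_mul, eval_C, eval_X]
  simp only [map_add, map_mul, map_natCast] at hij
  linear_combination hij

/-- coprimality to an integer -/
lemma coprime_nat {R : Type} [CommRing R] {a : R} : ∀ {n : ℕ}, n ≠ 0 →
    (∀ q : ℕ, q.Prime → q ∣ n → IsCoprime a (q : R)) → IsCoprime a (n : R) := by
  intro n
  induction n using Nat.recOnMul with
  | zero => intro h; exact absurd rfl h
  | one => intro _ _; rw [Nat.cast_one]; exact isCoprime_one_right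
  | prime p hp => intro _ h; exact h p hp dvd_rfl
  | mul x y hx hy =>
    intro h0 h
    rw [Nat.cast_mul]
    have hx0 : x ≠ 0 := left_ne_zero_of_mul h0
    have hy0 : y ≠ 0 := right_ne_zero_of_mul h0
    exact (hx hx0 fun q hq h1 => h q hq (h1.mul_right y)).mul_right
      (hy hy0 fun q hq h1 => h q hq (h1.mul_left x))

/-- the modulus -/
lemma exists_m (r W : ℕ) (hW : Odd W) : ∃ m : ℕ, Odd m ∧ 3 * W ∣ m ∧
    ∀ q : ℕ, q.Prime → ¬ q ∣ 2 * m → 2 * (r + 1) < q := by
  have hW0 : W ≠ 0 := by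
    rintro rfl
    exact absurd hW (by decide)
  set E := (2 * (r + 1)).factorial * (3 * W) with hE
  have hE0 : E ≠ 0 := mul_ne_zero (Nat.factorial_ne_zero _) (mul_ne_zero three_ne_zero hW0)
  obtain ⟨k, m, hm, hkm⟩ := Nat.exists_eq_two_pow_mul_odd hE0
  have h3W : Odd (3 * W) := Odd.mul (by decide) hW
  refine ⟨m, hm, ?_, fun q hq h => ?_⟩
  · have h1 : 3 * W ∣ 2 ^ k * m := by
      rw [← hkm, hE]
      exact dvd_mul_left _ _
    exact (Nat.Coprime.dvd_of_dvd_mul_left (Nat.Coprime.pow_right k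
      (Nat.coprime_two_right.2 h3W)) h1)
  · by_contra hlt
    push Not at hlt
    apply h
    have h1 : q ∣ (2 * (r + 1)).factorial := hq.dvd_factorial.2 hlt
    have h2 : q ∣ 2 ^ k * m := by
      rw [← hkm, hE]
      exact h1.mul_right _
    rcases hq.dvd_mul.1 h2 with h3 | h3
    · exact (hq.dvd_of_dvd_pow h3).mul_right m
    · exact h3.mul_left 2

/-- the norm of a translate -/
lemma exists_P {N : Type} [Field N] [NumberField N] {d : ℕ} (hd : Module.finrank ℚ N = d)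
    (α : 𝓞 N) : ∃ P : ℤ[X], P.Monic ∧ P.natDegree = d ∧
      ∀ c : ℤ, P.eval c = Algebra.norm ℤ (α + (c : 𝓞 N)) := by
  classical
  set b := RingOfIntegers.basis N with hb
  refine ⟨(Algebra.leftMulMatrix b (-α)).charpoly, Matrix.charpoly_monic _, ?_, fun c => ?_⟩
  · rw [Matrix.charpoly_natDegree_eq_dim, ← Module.finrank_eq_card_basis b, RingOfIntegers.rank, hd]
  · rw [Matrix.eval_charpoly, Algebra.norm_eq_matrix_det b]
    congr 1
    rw [map_add, map_neg, sub_neg_eq_add, add_comm]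
    congr 1
    have h1 := (Algebra.leftMulMatrix b).commutes c
    rw [eq_intCast (algebraMap ℤ (𝓞 N)) c] at h1
    rw [h1, Matrix.algebraMap_eq_diagonal, Matrix.scalar_apply]
    rfl

/-- **Elements with cyclic residue ring congruent to one.** -/
theorem cyn2 (N : Type) [Field N] [NumberField N] (ι : RR →+* 𝓞 N) (r : ℕ)
    (hfin : Module.finrank ℚ N = 2 * (r + 1)) (hU : Unr2 N) (W : ℕ) (hW : Odd W) :
    ∃ l : 𝓞 N, @Cyn (𝓞 N) _ ι.toAlgebra l ∧ ¬ Pr1 (@Algebra.norm RR (𝓞 N) _ _ ι.toAlgebra l) ∧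
      IsCoprime (@Algebra.norm RR (𝓞 N) _ _ ι.toAlgebra l) ((2 * (3 * W) : ℕ) : RR) ∧
      (W : 𝓞 N) ∣ l - 1 := by
  classical
  letI := ι.toAlgebra
  obtain ⟨⟨D, _⟩, hrN⟩ := Pool.Agent.K7.H73.GN.geo N ι r hfin
  obtain ⟨p, q, hpm, hp0, hpq, hinf⟩ := unr2_split hU
  haveI : Finite (𝓞 N ⧸ p) := Ideal.finiteQuotientOfFreeOfNeBot p hp0
  have hm2 : (Ideal.span {(2 : RR)}).IsMaximal :=
    PrincipalIdealRing.isMaximal_of_irreducible two_prime.irreducible
  obtain ⟨β, s, hβ⟩ := exists_norm_mod D.b (2 : RR) hm2 p q hpm ‹_› hpq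
    (by rw [hinf, map_ofNat]) wR
  obtain ⟨m, hm, h3m, hmq⟩ := exists_m r W hW
  obtain ⟨m2, hm2'⟩ := hm
  obtain ⟨m3, hm3⟩ := h3m
  set α0 : 𝓞 N := 1 + m * (β - 1) with hα0
  obtain ⟨θ, hθ⟩ := exists_sep D
  have hm0 : m ≠ 0 := by omega
  obtain ⟨t, ht⟩ := exists_sep2 D α0 θ hθ (m := 2 * m) (by omega)
  set α1 : 𝓞 N := α0 + ((2 * m : ℕ) : 𝓞 N) * ((t : 𝓞 N) * θ) with hα1
  have hV : (pw D α1).det ≠ 0 := by
    intro h0
    have h1 := pw_det D α1
    rw [h0] at h1
    have h2 : ((0 : RR) : ℂ) = 0 := rfl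
    rw [h2, mul_zero, eq_comm, ← Matrix.det_vandermonde fun i => D.σ i α1,
      Matrix.det_vandermonde_eq_zero_iff] at h1
    obtain ⟨i, j, hij, hne⟩ := h1
    exact hne (ht hij)
  obtain ⟨Nd, hNd⟩ := normSq_RR (pw D α1).det
  obtain ⟨yd, hyd⟩ := dvd_nsq _ hNd
  have hNd0 : Nd ≠ 0 := by
    rintro rfl
    have := one_le_normSq hV
    rw [hNd] at this
    norm_num at this
  obtain ⟨P, hPm, hPd, hP⟩ := exists_P hfin α1
  obtain ⟨c, ⟨c', hc'⟩, hcS⟩ := exists_good hPm (M := 2 * m)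
    (Nd.primeFactors.filter fun q => ¬ q ∣ 2 * m) (by
      intro q hq
      rw [Finset.mem_filter, Nat.mem_primeFactors] at hq
      exact ⟨hq.1.1, by rw [hPd]; exact hmq q hq.1.1 hq.2, hq.2⟩)
  set l : 𝓞 N := α1 + (c : 𝓞 N) with hl
  -- the congruences
  have e1 : l = β + ((2 : ℕ) : 𝓞 N) * (m2 * (β - 1) + m * (t * θ) + m * c') := by
    rw [hl, hα1, hα0, hc', hm2']
    push_cast
    ring
  have e2 : l = 1 + (m : 𝓞 N) * ((β - 1) + 2 * (t * θ) + 2 * c') := by
    rw [hl, hα1, hα0, hc']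
    push_cast
    ring
  obtain ⟨t1, ht1⟩ := norm_cong D 2 β (m2 * (β - 1) + m * (t * θ) + m * c')
  rw [← e1, hβ] at ht1
  obtain ⟨t2, ht2⟩ := norm_cong D m 1 ((β - 1) + 2 * (t * θ) + 2 * c')
  rw [← e2, map_one] at ht2
  have hwu : IsUnit wR := IsUnit.of_mul_eq_one (wR ^ 2) (by rw [← pow_succ', wR_cube])
  have hca2 : IsCoprime (Algebra.norm RR l) 2 := by
    have e : Algebra.norm RR l = wR + 2 * (s + t1) := by
      rw [ht1]
      push_cast
      ring
    rw [e]
    obtain ⟨u, hu⟩ := hwu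
    have hcz : IsCoprime wR 2 := ⟨((u⁻¹ : RRˣ) : RR), 0, by rw [← hu]; simp⟩
    exact hcz.add_mul_left_left _
  have hcam : IsCoprime (Algebra.norm RR l) (m : RR) := by
    rw [ht2]
    exact isCoprime_one_left.add_mul_left_left _
  have hc2m : IsCoprime (Algebra.norm RR l) ((2 * m : ℕ) : RR) := by
    push_cast
    exact hca2.mul_right hcam
  have hc6 : IsCoprime (Algebra.norm RR l) ((2 * (3 * W) : ℕ) : RR) := by
    refine hc2m.of_isCoprime_of_dvd_right ⟨(m3 : RR), ?_⟩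
    rw [hm3]
    push_cast
    ring
  -- the embeddings
  have hσl : ∀ i, D.σ i l = D.σ i α1 + (c : ℂ) := by
    intro i
    rw [hl, map_add, map_natCast]
  have hinj : Function.Injective fun i => D.σ i l := by
    intro i j hij
    apply ht
    simp only [hσl] at hij
    exact add_right_cancel hij
  have hl0 : l ≠ 0 := by
    intro h0
    rw [h0, norm_zero' D, isCoprime_zero_left] at hca2
    exact two_prime.not_isUnit hca2
  have hdet : (pw D l).det = (pw D α1).det := by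
    apply Subtype.ext
    have h1 := pw_det D l
    have h2 := pw_det D α1
    have h4 : D.P.det ≠ 0 := D.det
    refine mul_left_cancel₀ h4 ?_
    rw [h1, h2]
    refine Finset.prod_congr rfl fun i _ => Finset.prod_congr rfl fun j _ => ?_
    rw [hσl, hσl]
    ring
  -- the norm to the integers
  obtain ⟨Nl, hNl⟩ := normSq_RR (Algebra.norm RR l)
  obtain ⟨yl, hyl⟩ := dvd_nsq _ hNl
  have hNlP : (Nl : ℤ) ∣ P.eval (c : ℤ) := by
    have h1 := abs_Nm ι hrN l
    have h2 : (GN.Nm l : ℝ) = Nl := hNl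
    rw [h2, Ideal.absNorm_span_singleton] at h1
    have h3 : (Algebra.norm ℤ l).natAbs = Nl := by exact_mod_cast h1
    have h4 := hP c
    rw [h4]
    have h5 : α1 + ((c : ℤ) : 𝓞 N) = l := by
      rw [hl]
      push_cast
      rfl
    rw [h5, ← h3]
    exact Int.natAbs_dvd.2 dvd_rfl
  have hcd : IsCoprime (Algebra.norm RR l) (pw D l).det := by
    rw [hdet]
    refine (coprime_nat hNd0 fun q hq hqN => ?_).of_isCoprime_of_dvd_right ⟨yd, hyd⟩
    by_cases h2m : q ∣ 2 * m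
    · obtain ⟨k, hk⟩ := h2m
      refine hc2m.of_isCoprime_of_dvd_right ⟨(k : RR), ?_⟩
      rw [hk]
      push_cast
      ring
    · have h1 := hcS q (by
        rw [Finset.mem_filter, Nat.mem_primeFactors]
        exact ⟨⟨hq, hqN, hNd0⟩, h2m⟩)
      have h2 : ¬ q ∣ Nl := fun h => h1 ((Int.natCast_dvd_natCast.2 h).trans hNlP)
      have h3 : IsCoprime (Nl : ℤ) (q : ℤ) := by
        rw [Nat.isCoprime_iff_coprime]
        exact ((Nat.Prime.coprime_iff_not_dvd hq).2 h2).symm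
      have h4 := h3.map (Int.castRingHom RR)
      rw [map_natCast, map_natCast] at h4
      exact h4.of_isCoprime_of_dvd_left ⟨yl, hyl⟩
  refine ⟨l, cyn_of D hinj hl0 hcd, ?_, hc6, ?_⟩
  · refine not_pr1 (r := W * m3 * t2) (r' := s + t1) ?_ ?_
    · rw [ht2, hm3]
      push_cast
      ring
    · rw [ht1]
      push_cast
      ring
  · refine ⟨3 * m3 * ((β - 1) + 2 * (t * θ) + 2 * c'), ?_⟩
    rw [e2, hm3]
    push_cast
    ring

end Pool.Agent.K7.H56.P
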