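import Pool.Agent.K7.H56.P.B
import Pool.Agent.K7.H73.GN.Uni
import Pool.Agent.K7.H73.GN.Sum

/-!
# The partial zeta functions, without a condition on the degree and on the orders of the values
-/

set_option autoImplicit false
set_option linter.unusedSectionVars false
set_option linter.style.haveILetI false

open Complex Filter Topology Set MeasureTheory NumberField IsDedekindDomain
open scoped PeriodPair nonZeroDivisors

namespace Pool.Agent.K7.H56.P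

open Pool.Agent.K7.H56
open Pool.Agent.Y688 Pool.Agent.W192.HK Pool.Agent.TH936.CM Pool.Agent.R430 Pool.Agent.Y688.HF H667R3
open Pool.Agent.Y696
open Equiv (Perm)
open Pool.Agent.K7.H56.GN (Nm Dt cx Cfu Vx gV Good kap)

variable {r : ℕ} {A : Type} [CommRing A] [Algebra RR A]

lemma chw_one {M : ℕ} {χ : A → ℂ} (h : Chw M χ) {g : A} (hg : (M : A) ∣ g - 1) (β : A) :
    χ (g * β) = χ β := by
  obtain ⟨k, hk⟩ := hg
  have e : g * β = β + M * (k * β) := by linear_combination β * hk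
  rw [e, h.per]

theorem core_A2 [IsDomain A] [NoZeroSMulDivisors RR A] (D : GN A r) (ε : Fin r → Aˣ)
    (Λ : Fin (r + 1) → Fin (r + 1) → ℝ) (hΛ0 : ∀ i, Λ 0 i = 1)
    (hΛ : ∀ (b : Fin r) i, Λ b.succ i = Real.log (normSq (D.σ i (ε b : A)))) {M : ℕ} (hM : Odd M)
    (cyn : ∀ W : ℕ, Odd W → ∃ l : A, Cyn l ∧ ¬ Pr1 (Algebra.norm RR l) ∧
      IsCoprime (Algebra.norm RR l) ((2 * (3 * W) : ℕ) : RR) ∧ (W : A) ∣ l - 1) :
    ∃ (g l : A) (n : ℕ), Ax M g ∧ Ax M l ∧ IsCoprime g l ∧ (M : A) ∣ g - 1 ∧ (M : A) ∣ l - 1 ∧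
      (∀ χ, Chw M χ → D.Cfu n (Phi g l χ) ∧ Differentiable ℂ (D.LI Λ (Phi g l χ))) ∧
      ∀ (L : PeriodPair) (Ω : ℂ), HL L Ω → ∀ (Γ : Type) [LinearOrderedCommGroupWithZero Γ]
        (v : Valuation ℂ Γ), v 2 < 1 →
        (∀ χ, Chw M χ → (∀ α, v (χ α) ≤ 1) →
          v (D.P.det * D.LI Λ (Phi g l χ) 1) ≤ v 2 * v Ω ^ (r + 1)) ∧
        (∀ χ χ', Chw M χ → Chw M χ' → (∀ α, v (χ α - χ' α) < 1) →
          v (D.P.det * (D.LI Λ (Phi g l χ) 1 - D.LI Λ (Phi g l χ') 1)) < v 2 * v Ω ^ (r + 1)) := by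
  classical
  obtain ⟨g, hg, hgp, hgc, hg1⟩ := cyn M hM
  have hag : Ax M g := Ax.of hg hgp hgc dvd_rfl
  obtain ⟨π, hπ0, hπ⟩ := exists_pi hg
  obtain ⟨l0, hl0⟩ := exists_l0 D π hπ
  choose w hw0 hwk using fun (τ : Perm (Fin r)) (k : Fin r) =>
    exists_kill D k k.2 (fun j => vt (gA ε) l0 τ j)
  choose S hS0 hS using fun τ => GN.good_all (D := D) hag.c2
    (fun j : Fin (r + 1) => vt (gA ε) l0 τ j) (fun j => vt_gA_mem ε hl0 τ j)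
  set S' : Finset A := insert 1 (Finset.univ.biUnion fun τ => Finset.univ.image (w τ)) with hS'
  set S'' : Finset A := S' ∪ Finset.univ.biUnion S with hS''
  have hS''0 : ∀ w ∈ S'', w ≠ 0 := by
    intro x hx
    rcases Finset.mem_union.1 hx with hx | hx
    · rcases Finset.mem_insert.1 hx with rfl | hx
      · exact one_ne_zero
      · obtain ⟨τ, _, hx⟩ := Finset.mem_biUnion.1 hx
        obtain ⟨k, _, rfl⟩ := Finset.mem_image.1 hx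
        exact hw0 τ k
    · obtain ⟨τ, _, hx⟩ := Finset.mem_biUnion.1 hx
      exact hS0 τ x hx
  obtain ⟨W, hW, hWl⟩ := exists_W0 D S'' hS''0
  obtain ⟨Ng, hNg0, hNg, hgn, hgd⟩ := exists_nat D hg.ne
  have hNgo : Odd Ng := odd_nsq hNg (coprime_not_dvd hag.c2)
  obtain ⟨l, hl, hlp, hlc, hl1⟩ := cyn (W * (M * Ng)) (hW.mul (hM.mul hNgo))
  have hal : Ax M l := Ax.of hl hlp hlc ⟨W * Ng, by ring⟩
  have halg : Ax (M * Ng) l := Ax.of hl hlp hlc ⟨W, by ring⟩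
  obtain ⟨Nl, hNl0, hNl, hln, hld⟩ := exists_nat D hl.ne
  have hNlo : Odd Nl := odd_nsq hNl (coprime_not_dvd hal.c2)
  have hM0 : M ≠ 0 := by
    rintro rfl
    exact absurd hM (by decide)
  have hcop : ∀ w ∈ S'', IsCoprime w l := by
    refine hWl l ?_
    exact hlc.of_isCoprime_of_dvd_right ⟨(3 * (M * Ng) : RR), by push_cast; ring⟩
  set n := M * Ng * Nl with hn
  have hno : Odd n := (hM.mul hNgo).mul hNlo
  have : NeZero n := ⟨mul_ne_zero (mul_ne_zero hM0 hNg0) hNl0⟩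
  have hcfu1 : ∀ χ, Chw M χ → D.Cfu (M * Ng) (md (cc χ) 1 g) := fun χ hχ =>
    md_cfu (cc_cfu D hχ) 1 hgd
  have hcfu : ∀ χ, Chw M χ → D.Cfu n (Phi g l χ) := fun χ hχ => md_cfu (hcfu1 χ hχ) _ hld
  have hmz : ∀ χ, Chw M χ → ∀ w ∈ S'', Mzv n (Phi g l χ) w := by
    intro χ hχ w hw
    exact mzv_cyn D (hcfu1 χ hχ).per hl halg.cM.symm hln (hcop w hw)
  have hk : ∀ (τ : Perm (Fin r)) k, k < r → ∃ w ∈ S', w ≠ 0 ∧
      (∀ j ≤ k, vt (gA ε) l0 τ j w = 0) := by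
    intro τ k hk
    refine ⟨w τ ⟨k, hk⟩, ?_, hw0 τ ⟨k, hk⟩, hwk τ ⟨k, hk⟩⟩
    exact Finset.mem_insert_of_mem (Finset.mem_biUnion.2 ⟨τ, Finset.mem_univ _,
      Finset.mem_image_of_mem _ (Finset.mem_univ _)⟩)
  have hone : ∃ w ∈ S', w ≠ 0 := ⟨1, Finset.mem_insert_self _ _, one_ne_zero⟩
  have hsub1 : ∀ w ∈ S', w ∈ S'' := fun w hw => Finset.mem_union_left _ hw
  have hok : ∀ χ, Chw M χ → Ok D ε π l0 S n (Phi g l χ) := by
    intro χ hχ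
    refine ⟨hcfu χ hχ, ?_, ?_, ?_, ?_⟩
    · intro x hx h0
      apply hx
      rw [hπ0] at h0
      unfold Phi md Pool.Agent.Y688.dv
      rw [if_pos h0]
      ring
    · intro τ w hw
      exact hmz χ hχ w (Finset.mem_union_right _ (Finset.mem_biUnion.2 ⟨τ, Finset.mem_univ _, hw⟩))
    · intro τ k hk'
      obtain ⟨w, hw, h0, h2⟩ := hk τ k hk'
      exact ⟨w, h0, h2, hmz χ hχ w (hsub1 w hw)⟩
    · obtain ⟨w, hw, h0⟩ := hone
      exact ⟨w, h0, hmz χ hχ w (hsub1 w hw)⟩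
  have hval : ∀ φ, Ok D ε π l0 S n φ → _ := fun φ h => Ok.val hΛ0 hΛ hl0 hS hno h
  have hgl : IsCoprime g l := by
    have h1 := halg.cop D
    refine (h1.of_isCoprime_of_dvd_right ?_).symm
    rw [Nat.cast_mul]
    exact hgd.mul_left _
  have hl1' : (M : A) ∣ l - 1 := by
    refine Dvd.dvd.trans ⟨(W * Ng : A), ?_⟩ hl1
    push_cast
    ring
  refine ⟨g, l, n, hag, hal, hgl, hg1, hl1', fun χ hχ => ⟨hcfu χ hχ, (hval _ (hok χ hχ)).1⟩,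
    fun L Ω hL Γ _ v h2 => ⟨fun χ hχ hv => ?_, fun χ χ' hχ hχ' hv => ?_⟩⟩
  · obtain ⟨_, lm, _, h1, h3⟩ := hval _ (hok χ hχ)
    rw [h1]
    exact (h3 L Ω hL Γ v h2).1 (v_Phi_le h2 g l hv)
  · obtain ⟨_, lm, hlm, h1, _⟩ := hval _ (hok χ hχ)
    obtain ⟨_, lm', hlm', h1', _⟩ := hval _ (hok χ' hχ')
    have hsub := (hok χ hχ).sub (hok χ' hχ') hk (fun w hw => hmz χ hχ w (hsub1 w hw))
      (fun w hw => hmz χ' hχ' w (hsub1 w hw)) hone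
    obtain ⟨_, lm2, hlm2, _, h3⟩ := hval _ hsub
    have e : lm2 = fun τ => lm τ - lm' τ := by
      funext τ
      refine tendsto_nhds_unique (hlm2 τ) ?_
      refine ((hlm τ).sub (hlm' τ)).congr' ?_
      filter_upwards [self_mem_nhdsWithin] with ρ (hρ : 0 < ρ)
      rw [Ls_sub (hcfu χ hχ).bd (hcfu χ' hχ').bd _ hρ]
      ring
    have e2 : SS lm2 = SS lm - SS lm' := by
      rw [e]
      unfold SS
      rw [← Finset.sum_sub_distrib]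
      exact Finset.sum_congr rfl fun τ _ => by ring
    rw [h1, h1', ← e2]
    exact (h3 L Ω hL Γ v h2).2 (v_Phi_lt h2 g l hv)

theorem pz_A2 [IsDomain A] [NoZeroSMulDivisors RR A] (D : GN A r) (ε : Fin r → Aˣ)
    (Λ : Fin (r + 1) → Fin (r + 1) → ℝ) (hΛ0 : ∀ i, Λ 0 i = 1)
    (hΛ : ∀ (b : Fin r) i, Λ b.succ i = Real.log (normSq (D.σ i (ε b : A))))
    (hdet : (Matrix.of Λ).det ≠ 0) {T : Subgroup Aˣ} [Finite T]
    (hU : Function.Bijective (fun p : T × (Fin r → ℤ) => (p.1 : Aˣ) * ∏ b, ε b ^ p.2 b))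
    (hsum : ∀ t : ℝ, 1 < t → Summable (fun I : PI A => Nm (gp I) ^ (-t)))
    (cyn : ∀ W : ℕ, Odd W → ∃ l : A, Cyn l ∧ ¬ Pr1 (Algebra.norm RR l) ∧
      IsCoprime (Algebra.norm RR l) ((2 * (3 * W) : ℕ) : RR) ∧ (W : A) ∣ l - 1)
    {M : ℕ} {χ χ' : A → ℂ} (hχ : Chw M χ) (hχ' : Chw M χ') :
    ∃ f f' : ℂ → ℂ, PVA χ f ∧ PVA χ' f' ∧
      ∀ (L : PeriodPair) (Ω : ℂ), HL L Ω → ∀ (Γ : Type) [LinearOrderedCommGroupWithZero Γ]
        (v : Valuation ℂ Γ), v 2 < 1 → v D.P.det = 1 → v (Nat.card T : ℂ) = v 2 →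
        (∀ α, v (χ α) ≤ 1) → v (f 1) ≤ v Ω ^ (r + 1) ∧
        ((∀ α, v (χ α - χ' α) < 1) → v (f 1 - f' 1) < v Ω ^ (r + 1)) := by
  obtain ⟨g, l, n, hg, hl, hgl, hg1, hl1, hC, hV⟩ := core_A2 D ε Λ hΛ0 hΛ hχ.odd cyn
  have hk1 : (1 : ℂ) ^ 2 ^ 0 = 1 := one_pow _
  have hxg : ∀ β, χ (g * β) = 1 * χ β := fun β => by rw [one_mul]; exact chw_one hχ hg1 β
  have hxl : ∀ β, χ (l * β) = 1 * χ β := fun β => by rw [one_mul]; exact chw_one hχ hl1 β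
  have hxg' : ∀ β, χ' (g * β) = 1 * χ' β := fun β => by rw [one_mul]; exact chw_one hχ' hg1 β
  have hxl' : ∀ β, χ' (l * β) = 1 * χ' β := fun β => by rw [one_mul]; exact chw_one hχ' hl1 β
  refine ⟨_, _, fv_pva D hΛ0 hΛ hdet hU hsum hg hl hgl hχ (hC χ hχ).1 (hC χ hχ).2 hxg hxl
    (norm_root hk1) (norm_root hk1), fv_pva D hΛ0 hΛ hdet hU hsum hg hl hgl hχ' (hC χ' hχ').1
    (hC χ' hχ').2 hxg' hxl' (norm_root hk1) (norm_root hk1),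
    fun L Ω hL Γ _ v h2 hdP hcT hv => ?_⟩
  obtain ⟨hV1, hV2⟩ := hV L Ω hL Γ v h2
  have a1 := hV1 χ hχ hv
  rw [map_mul, hdP, one_mul] at a1
  set E := Ef g l 1 1 1 with hE
  have bE : v E = 1 := Ef_v D hg hl h2 (v_sub_one h2 0 hk1) (v_sub_one h2 0 hk1)
  set c0 : ℂ := (Nat.card T : ℂ) * cst Λ with hc0
  have hvc : v c0 = v 2 := by
    rw [hc0, map_mul, hcT]
    rcases cst_eq hdet with h | h
    · rw [h, map_one, mul_one]
    · rw [h, v.map_neg, map_one, mul_one]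
  have h20 : v 2 ≠ 0 := (v.ne_zero_iff).2 two_ne_zero
  have f1 : fv D Λ c0 g l χ 1 1 1 = c0⁻¹ * D.LI Λ (Phi g l χ) 1 / E := by
    unfold fv
    rw [Complex.Gamma_one, inv_one, one_pow, one_mul]
  have f2 : fv D Λ c0 g l χ' 1 1 1 = c0⁻¹ * D.LI Λ (Phi g l χ') 1 / E := by
    unfold fv
    rw [Complex.Gamma_one, inv_one, one_pow, one_mul]
  have d1 : ∀ z : ℂ, v z ≤ v 2 * v Ω ^ (r + 1) → v (c0⁻¹ * z) ≤ v Ω ^ (r + 1) := by
    intro z hz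
    rw [map_mul, map_inv₀, hvc]
    calc (v 2)⁻¹ * v z ≤ (v 2)⁻¹ * (v 2 * v Ω ^ (r + 1)) := by gcongr
      _ = _ := inv_mul_cancel_left₀ h20 _
  have d2 : ∀ z : ℂ, v z < v 2 * v Ω ^ (r + 1) → v (c0⁻¹ * z) < v Ω ^ (r + 1) := by
    intro z hz
    rw [map_mul, map_inv₀, hvc]
    calc (v 2)⁻¹ * v z < (v 2)⁻¹ * (v 2 * v Ω ^ (r + 1)) := by
          exact mul_lt_mul_of_pos_left hz (zero_lt_iff.2 (inv_ne_zero h20))
      _ = _ := inv_mul_cancel_left₀ h20 _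
  rw [f1, f2]
  refine ⟨?_, fun hvs => ?_⟩
  · rw [map_div₀, bE, div_one]
    exact d1 _ a1
  · have a3 := hV2 χ χ' hχ hχ' hvs
    rw [map_mul, hdP, one_mul] at a3
    have e : c0⁻¹ * D.LI Λ (Phi g l χ) 1 / E - c0⁻¹ * D.LI Λ (Phi g l χ') 1 / E =
        c0⁻¹ * (D.LI Λ (Phi g l χ) 1 - D.LI Λ (Phi g l χ') 1) / E := by
      ring
    rw [e, map_div₀, bE, div_one]
    exact d2 _ a3

/-- **The partial zeta functions**, for any number field unramified at two. -/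
theorem pz2 (N : Type) [Field N] [NumberField N] (ι : RR →+* 𝓞 N) (r : ℕ)
    (hfin : Module.finrank ℚ N = 2 * (r + 1)) (hU2 : Unr2 N)
    (M : ℕ) (χ χ' : 𝓞 N → ℂ) (hχ : Chw M χ) (hχ' : Chw M χ') :
    ∃ f f' : ℂ → ℂ, PV ι χ f ∧ PV ι χ' f' ∧
      ∀ (L : PeriodPair) (Ω : ℂ), HL L Ω → ∀ (Γ : Type) [LinearOrderedCommGroupWithZero Γ]
        (v : Valuation ℂ Γ), v 2 < 1 → (∀ α, v (χ α) ≤ 1) → v (f 1) ≤ v Ω ^ (r + 1) ∧
        ((∀ α, v (χ α - χ' α) < 1) → v (f 1 - f' 1) < v Ω ^ (r + 1)) := by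
  letI := ι.toAlgebra
  obtain ⟨⟨D, hD⟩, hrN⟩ := Pool.Agent.K7.H73.GN.geo N ι r hfin
  obtain ⟨ε, hbij, hdet⟩ := Pool.Agent.K7.H73.GN.uni N ι r hfin D
  haveI : NoZeroSMulDivisors RR (𝓞 N) := ntz (𝓞 N) D
  have hsum : ∀ t : ℝ, 1 < t → Summable (fun I : PI (𝓞 N) => GN.Nm (gp I) ^ (-t)) := by
    intro t ht
    have h1 := Pool.Agent.K7.H73.GN.sum_ideals N t ht
    have hi : Function.Injective (fun I : PI (𝓞 N) => (⟨I.1, I.2.1⟩ : NI (𝓞 N))) := by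
      intro I J h
      have h' : I.1 = J.1 := congrArg (fun z : NI (𝓞 N) => z.1) h
      exact Subtype.ext h'
    refine (h1.comp_injective hi).congr fun I => ?_
    simp only [Function.comp_apply]
    rw [← abs_Nm ι hrN, gp_span]
  obtain ⟨f, f', hf, hf', hv⟩ := pz_A2 D ε _ (fun _ => rfl) (fun _ _ => rfl) hdet hbij hsum
    (fun W hW => cyn2 N ι r hfin hU2 W hW) hχ hχ'
  have conv : ∀ {χ : 𝓞 N → ℂ} {f : ℂ → ℂ}, PVA χ f → PV ι χ f := fun {χ f} h =>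
    ⟨h.mero, h.an, fun s hs => (h.sum s hs).congr_fun fun I => Fe_eq ι hrN χ s (gp I)⟩
  obtain ⟨m, hm1, hm2⟩ := tors_card hU2
  refine ⟨f, f', conv hf, conv hf', fun L Ω hL Γ _ v h2 hv1 =>
    hv L Ω hL Γ v h2 (hD hU2 Γ v h2) ?_ hv1⟩
  rw [hm2]
  push_cast
  rw [map_mul]
  have := Pool.Agent.Y688.v_odd (v := v) h2 (n := (m : ℤ)) (by exact_mod_cast hm1)
  have h5 : v (m : ℂ) = 1 := by exact_mod_cast this
  rw [h5, mul_one]

end Pool.Agent.K7.H56.P
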