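import Pool.Agent.K7.H56.P.C
import Pool.Agent.K7.H56.M.B

/-!
# The congruence between the values at one, for any number field unramified at two and any
coefficients
-/

set_option autoImplicit false
set_option linter.unusedSectionVars false

open Complex NumberField IsDedekindDomain
open scoped PeriodPair nonZeroDivisors

namespace Pool.Agent.K7.H56.P

open Pool.Agent.K7.H56
open Pool.Agent.R430
open Pool.Agent.Y696 Pool.Agent.W192.HK Pool.Agent.TH936.CM H667R3
open Pool.Agent.Y688 (NI HL euler v_sub_one v_root)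
open Pool.Agent.K7.H70.CL (Fe_thI SC)
open Pool.Agent.K7.H56.M (IG)

/-- completely multiplicative functions on the ideals, with values zero or roots of unity of any
order, periodic on the elements -/
structure IH {N : Type} [Field N] (n : ℕ) (X : Ideal (𝓞 N) → ℂ) : Prop where
  mul : ∀ I J, X (I * J) = X I * X J
  top : X ⊤ = 1
  cong : ∀ α β : 𝓞 N, (n : 𝓞 N) ∣ α - β → X (Ideal.span {α}) = X (Ideal.span {β})
  val : ∀ I, X I = 0 ∨ ∃ k : ℕ, k ≠ 0 ∧ X I ^ k = 1
  ne : ∀ I, IsCoprime I (Ideal.span {(n : 𝓞 N)}) → X I ≠ 0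

section
variable {N : Type} [Field N] [NumberField N]
variable {n : ℕ} {X Y : Ideal (𝓞 N) → ℂ} {ι : Pool.Agent.Y688.RR →+* 𝓞 N}
  {a : ClassGroup (𝓞 N) → Ideal (𝓞 N)} {f : ClassGroup (𝓞 N) → ℂ → ℂ}

omit [NumberField N] in
lemma IGih (hX : IG n X) : IH n X where
  mul := hX.mul
  top := hX.top
  cong := hX.cong
  val I := by
    rcases hX.val I with h | ⟨k, hk⟩
    · exact Or.inl h
    · exact Or.inr ⟨2 ^ k, pow_ne_zero k two_ne_zero, hk⟩
  ne := hX.ne

omit [NumberField N] in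
lemma IH.pow (hX : IH n X) (I : Ideal (𝓞 N)) (h : IsCoprime I (Ideal.span {(n : 𝓞 N)})) :
    ∃ k : ℕ, k ≠ 0 ∧ X I ^ k = 1 :=
  (hX.val I).resolve_left (hX.ne I h)

omit [NumberField N] in
lemma IH.bd (hX : IH n X) (I : Ideal (𝓞 N)) : ‖X I‖ ≤ 1 := by
  rcases hX.val I with h | ⟨k, hk0, hk⟩
  · rw [h, norm_zero]
    exact zero_le_one
  · exact (Complex.norm_eq_one_of_pow_eq_one hk hk0).le

omit [NumberField N] in
lemma IH.conj (hX : IH n X) : IH n (fun I => (starRingEnd ℂ) (X I)) where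
  mul I J := by rw [hX.mul, map_mul]
  top := by rw [hX.top, map_one]
  cong α β h := by rw [hX.cong α β h]
  val I := by
    rcases hX.val I with h | ⟨k, hk0, hk⟩
    · exact Or.inl (by rw [h, map_zero])
    · exact Or.inr ⟨k, hk0, by rw [← map_pow, hk, map_one]⟩
  ne I h := (map_ne_zero _).2 (hX.ne I h)

omit [NumberField N] in
lemma IH.chw (hX : IH n X) {M : ℕ} (h3 : 3 ∣ M) (hM : Odd M) (hn : n ∣ M) {a : Ideal (𝓞 N)}
    (ha : (M : 𝓞 N) ∈ a) : Chw M (thI X a) where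
  unit u α := by
    have h1 : (Ideal.span {(u : 𝓞 N) * α} : Ideal (𝓞 N)) = Ideal.span {α} :=
      Ideal.span_singleton_mul_left_unit u.isUnit α
    by_cases h : α ∈ a
    · rw [thI_pos h, thI_pos (a.mul_mem_left _ h), h1]
    · rw [thI_neg h, thI_neg]
      intro h2
      apply h
      have := a.mul_mem_left ((u⁻¹ : (𝓞 N)ˣ) : 𝓞 N) h2
      rwa [← mul_assoc, Units.inv_mul, one_mul] at this
  per α γ := by
    have h1 : X (Ideal.span {α + M * γ}) = X (Ideal.span {α}) := by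
      refine hX.cong _ _ ?_
      obtain ⟨k, hk⟩ := hn
      refine ⟨k * γ, ?_⟩
      rw [hk]
      push_cast
      ring
    have h2 : α + M * γ ∈ a ↔ α ∈ a := by
      have h3 : (M : 𝓞 N) * γ ∈ a := a.mul_mem_right _ ha
      exact a.add_mem_iff_left h3
    by_cases h : α ∈ a
    · rw [thI_pos h, thI_pos (h2.2 h), h1]
    · rw [thI_neg h, thI_neg (fun h3 => h (h2.1 h3))]
  bd α := by
    by_cases h : α ∈ a
    · rw [thI_pos h]
      exact hX.bd _
    · rw [thI_neg h, norm_zero]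
      exact zero_le_one
  three := h3
  odd := hM

omit [NumberField N] in
lemma IH.thI_mul (hX : IH n X) {M : ℕ} {a : Ideal (𝓞 N)} (ha : (M : 𝓞 N) ∈ a) {l : 𝓞 N}
    (hl : IsCoprime l (M : 𝓞 N)) (β : 𝓞 N) :
    thI X a (l * β) = X (Ideal.span {l}) * thI X a β := by
  have h1 : X (Ideal.span {l * β}) = X (Ideal.span {l}) * X (Ideal.span {β}) := by
    rw [← hX.mul, Ideal.span_singleton_mul_span_singleton]
  by_cases h : β ∈ a
  · rw [thI_pos h, thI_pos (a.mul_mem_left _ h), h1]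
  · rw [thI_neg h, thI_neg, mul_zero]
    intro h2
    apply h
    obtain ⟨x, y, hxy⟩ := hl
    have h3 : β = x * (l * β) + y * β * M := by linear_combination -β * hxy
    rw [h3]
    exact a.add_mem (a.mul_mem_left _ h2) (a.mul_mem_left _ ha)

lemma gI_muly (hX : IH n X) (s : ℂ) (I J : Ideal (𝓞 N)) :
    gI ι X s (I * J) = gI ι X s I * gI ι X s J := by
  unfold gI
  rw [hX.mul, PN_mul, map_mul, Nat.cast_mul, Complex.natCast_mul_natCast_cpow]
  ring

lemma gI_topy (hX : IH n X) (s : ℂ) : gI ι X s ⊤ = 1 := by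
  unfold gI
  rw [hX.top, PN_top, Ideal.absNorm_top]
  simp

lemma gI_ney (hX : IH n X) (s : ℂ) {a : Ideal (𝓞 N)} (h0 : a ≠ ⊥)
    (hn : IsCoprime a (Ideal.span {(n : 𝓞 N)})) (h3 : Nat.Coprime (Ideal.absNorm a) 3) :
    gI ι X s a ≠ 0 := by
  have hN : ((Ideal.absNorm a : ℕ) : ℂ) ≠ 0 := by
    rw [Ne, Nat.cast_eq_zero, Ideal.absNorm_eq_zero_iff]
    exact h0
  unfold gI
  refine mul_ne_zero (mul_ne_zero (hX.ne _ hn) ?_) ?_
  · intro h1
    have h2 := PN_norm (ι := ι) h3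
    rw [h1, zero_mul] at h2
    exact hN h2.symm
  · rw [Complex.cpow_ne_zero_iff]
    exact Or.inl hN

lemma gney (hX : IH n X) (ha : Reps (6 * n) a) (s : ℂ)
    (c : ClassGroup (𝓞 N)) : gI ι X s (a c) ≠ 0 :=
  gI_ney hX s (ha.ne c) (cop_span_of (dvd_mul_left n 6) (ha.cop c))
    (Nat.Coprime.coprime_dvd_right ⟨2 * n, by ring⟩ (ha.cop c))

lemma gI_inv_diffy (hX : IH n X) (ha : Reps (6 * n) a) (c : ClassGroup (𝓞 N)) :
    Differentiable ℂ (fun s => (gI ι X s (a c))⁻¹) := by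
  refine Differentiable.inv ?_ (gney hX ha · c)
  unfold gI
  refine Differentiable.const_mul ?_ _
  have hN : ((Ideal.absNorm (a c) : ℕ) : ℂ) ≠ 0 := by
    rw [Ne, Nat.cast_eq_zero, Ideal.absNorm_eq_zero_iff]
    exact ha.ne c
  exact (differentiable_id.neg).const_cpow (Or.inl hN)

theorem SC_VVy (hX : IH n X) (ha : Reps (6 * n) a) (hf : ∀ c, PV ι (thI X (a c)) (f c)) :
    VV ι X (SC ι X a f) := by
  refine ⟨fun z hz => ?_, ?_, fun s hs => ?_⟩
  · unfold SC
    refine MeromorphicAt.fun_sum fun c _ => ?_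
    exact (((gI_inv_diffy hX ha c).analyticAt z).meromorphicAt).mul ((hf c).mero z hz)
  · unfold SC
    refine Finset.analyticAt_fun_sum _ fun c _ => ?_
    exact ((gI_inv_diffy hX ha c).analyticAt 1).mul (hf c).an
  · classical
    have key : ∀ c : ClassGroup (𝓞 N), HasSum (fun I : NI (𝓞 N) => if Pool.Agent.R430.cls I = c then gI ι X s I.1
        else 0) ((gI ι X s (a c))⁻¹ * f c s) := by
      intro c
      have h1 := (hf c).sum s hs
      have h2 : HasSum (fun J : PI (𝓞 N) => gI ι X s J.1 * (if J.1 ≤ a c then 1 else 0))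
          (f c s) := by
        refine h1.congr_fun fun J => ?_
        rw [Fe_thI, gp_span]
        congr 1
        have h4 : J.1 ≤ a c ↔ gp J ∈ a c := by
          rw [← Ideal.span_singleton_le_iff_mem, gp_span]
        simp only [h4]
      let S := {I : NI (𝓞 N) // Pool.Agent.R430.cls I = c}
      let g : S → PI (𝓞 N) := fun I => ⟨I.1.1 * a c, mul_ne_zero I.1.2 (ha.ne c),
        (ha.pr c I.1).1 I.2⟩
      have hg : Function.Injective g := by
        intro I J hIJ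
        have h4 : I.1.1 * a c = J.1.1 * a c := congrArg Subtype.val hIJ
        exact Subtype.ext (Subtype.ext (mul_right_cancel₀ (ha.ne c) h4))
      have h5 : HasSum ((fun J : PI (𝓞 N) => gI ι X s J.1 * (if J.1 ≤ a c then 1 else 0)) ∘ g)
          (f c s) := by
        refine (hg.hasSum_iff fun J hJ => ?_).2 h2
        rw [if_neg, mul_zero]
        intro h6
        apply hJ
        obtain ⟨I, hI⟩ := Ideal.dvd_iff_le.2 h6
        have hI0 : I ≠ ⊥ := by
          rintro rfl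
          rw [Ideal.mul_bot] at hI
          exact J.2.1 hI
        refine ⟨⟨⟨I, hI0⟩, (ha.pr c _).2 ?_⟩, Subtype.ext ?_⟩
        · have := J.2.2
          rw [hI, mul_comm] at this
          exact this
        · show I * a c = J.1
          rw [hI, mul_comm]
      have h6 : HasSum (fun I : S => gI ι X s I.1.1) ((gI ι X s (a c))⁻¹ * f c s) := by
        refine (h5.mul_left (gI ι X s (a c))⁻¹).congr_fun fun I => ?_
        have h7 := gney (ι := ι) hX ha s c
        show gI ι X s I.1.1 = (gI ι X s (a c))⁻¹ * (gI ι X s (I.1.1 * a c) *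
          (if I.1.1 * a c ≤ a c then 1 else 0))
        rw [if_pos (Ideal.mul_le_right : I.1.1 * a c ≤ a c), mul_one, gI_muly hX]
        field_simp
      have h7 := (Subtype.val_injective (p := fun I : NI (𝓞 N) => Pool.Agent.R430.cls I = c)).hasSum_iff
        (f := fun I : NI (𝓞 N) => if Pool.Agent.R430.cls I = c then gI ι X s I.1 else 0)
        (a := (gI ι X s (a c))⁻¹ * f c s) (fun I hI => by
          rw [if_neg]
          intro h8
          exact hI ⟨⟨I, h8⟩, rfl⟩)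
      rw [← h7]
      refine h6.congr_fun fun I => ?_
      simp only [Function.comp_apply]
      rw [if_pos I.2]
    have h4 := hasSum_sum (s := Finset.univ) fun c _ => key c
    unfold SC
    refine h4.congr_fun fun I => ?_
    rw [Finset.sum_ite_eq]
    simp

variable {Γ : Type} [LinearOrderedCommGroupWithZero Γ] {v : Valuation ℂ Γ}

lemma vX_le (hX : IH n X) (I : Ideal (𝓞 N)) : v (X I) ≤ 1 := by
  rcases hX.val I with h | ⟨k, hk0, hk⟩
  · rw [h, map_zero]
    exact zero_le_one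
  · exact (v_root hk0 hk).le

lemma thI_ley (hX : IH n X) (b : Ideal (𝓞 N)) (α : 𝓞 N) : v (thI X b α) ≤ 1 := by
  by_cases h4 : α ∈ b
  · rw [thI_pos h4]
    exact vX_le hX _
  · rw [thI_neg h4, map_zero]
    exact zero_le_one

lemma thI_lty (hXY : ∀ I, v (X I - Y I) < 1) (b : Ideal (𝓞 N)) (α : 𝓞 N) :
    v (thI X b α - thI Y b α) < 1 := by
  by_cases h4 : α ∈ b
  · rw [thI_pos h4, thI_pos h4]
    exact hXY _
  · rw [thI_neg h4, thI_neg h4, sub_zero, map_zero]
    exact zero_lt_one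

/-- the sizes of the coefficients -/
lemma v_gIy (hX : IH n X) (hY : IH n Y) (hv : v 2 < 1) (ha : Reps (6 * n) a)
    (c : ClassGroup (𝓞 N)) : v (gI ι X 1 (a c))⁻¹ = 1 ∧
      ((∀ I, v (X I - Y I) < 1) → v ((gI ι X 1 (a c))⁻¹ - (gI ι Y 1 (a c))⁻¹) < 1) := by
  have hc3 : Nat.Coprime (Ideal.absNorm (a c)) 3 :=
    Nat.Coprime.coprime_dvd_right ⟨2 * n, by ring⟩ (ha.cop c)
  have hc2 : Nat.Coprime (Ideal.absNorm (a c)) 2 :=
    Nat.Coprime.coprime_dvd_right ⟨3 * n, by ring⟩ (ha.cop c)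
  have hcn := cop_span_of (dvd_mul_left n 6) (ha.cop c)
  have h1 := PN_norm (ι := ι) hc3
  obtain ⟨b, hb⟩ := PN_mem (ι := ι) (a c)
  have hodd : Odd (Ideal.absNorm (a c)) := Nat.coprime_two_right.1 hc2
  rw [hb] at h1
  obtain ⟨k1, k2⟩ := v_pair hv (a := b) (m := Ideal.absNorm (a c)) (by exact_mod_cast hodd) (by
    rw [h1]; push_cast; rfl)
  obtain ⟨k, hk0, hk⟩ := hX.pow _ hcn
  obtain ⟨l, hl0, hl⟩ := hY.pow _ hcn
  have hk2 : v (X (a c)) = 1 := v_root hk0 hk
  have hl2 : v (Y (a c)) = 1 := v_root hl0 hl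
  have hX0 := hX.ne _ hcn
  have hY0 := hY.ne _ hcn
  have hvN : v ((Ideal.absNorm (a c) : ℕ) : ℂ) = 1 := by
    have := Pool.Agent.Y688.v_odd hv (n := ((Ideal.absNorm (a c) : ℕ) : ℤ)) (by exact_mod_cast hodd)
    exact_mod_cast this
  have hN0 : ((Ideal.absNorm (a c) : ℕ) : ℂ) ≠ 0 := by
    intro h0
    rw [h0, map_zero] at hvN
    exact zero_ne_one hvN
  have hb0 : (b : ℂ) ≠ 0 := by
    intro h0
    rw [h0, map_zero] at k1
    exact zero_ne_one k1
  have e1 : (gI ι X 1 (a c))⁻¹ = (X (a c))⁻¹ * ((b : ℂ)⁻¹ * ((Ideal.absNorm (a c) : ℕ) : ℂ)) := by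
    unfold gI
    rw [hb, Complex.cpow_neg_one]
    field_simp
  have e2 : (gI ι Y 1 (a c))⁻¹ = (Y (a c))⁻¹ * ((b : ℂ)⁻¹ * ((Ideal.absNorm (a c) : ℕ) : ℂ)) := by
    unfold gI
    rw [hb, Complex.cpow_neg_one]
    field_simp
  constructor
  · rw [e1, map_mul, map_mul, map_inv₀, map_inv₀, hk2, k1, hvN]
    simp
  · intro hXY
    rw [e1, e2, ← sub_mul, map_mul, map_mul, map_inv₀, k1, hvN, inv_one, one_mul, mul_one]
    have e3 : (X (a c))⁻¹ - (Y (a c))⁻¹ = -((X (a c) - Y (a c)) * ((X (a c))⁻¹ * (Y (a c))⁻¹)) := by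
      field_simp
      ring
    rw [e3, v.map_neg, map_mul, map_mul, map_inv₀, map_inv₀, hk2, hl2, inv_one, one_mul, mul_one]
    exact hXY _

end

/-- **The congruence**, for any number field unramified at two. -/
theorem core_gen2 (N : Type) [Field N] [NumberField N] (ι : Pool.Agent.Y688.RR →+* 𝓞 N) (d : ℕ)
    (hd : Module.finrank ℚ N = 2 * d) (hU : Unr2 N) (n : ℕ)
    (X Y : Ideal (𝓞 N) → ℂ) (hX : IH n X) (hY : IH n Y) (hn : Odd n) :
    ∃ f g : ℂ → ℂ, VV ι X f ∧ VV ι Y g ∧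
      ∀ (L : PeriodPair) (Ω : ℂ), HL L Ω → ∀ (Γ : Type) [LinearOrderedCommGroupWithZero Γ]
        (v : Valuation ℂ Γ), v 2 < 1 → v (f 1) ≤ v Ω ^ d ∧
        ((∀ I, v (X I - Y I) < 1) → v (f 1 - g 1) < v Ω ^ d) := by
  obtain ⟨r, rfl⟩ : ∃ r, d = r + 1 := by
    cases d with
    | zero =>
      have : 0 < Module.finrank ℚ N := Module.finrank_pos
      omega
    | succ r => exact ⟨r, rfl⟩
  have hn0 : n ≠ 0 := by
    obtain ⟨k, hk⟩ := hn
    omega
  obtain ⟨a, ha⟩ := exists_reps (N := N) (n := 6 * n) (by omega)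
  obtain ⟨M, h3, hM, hnM, hMa⟩ := exists_mod hn ha
  have key := fun c : ClassGroup (𝓞 N) => pz2 N ι r hd hU M (thI X (a c)) (thI Y (a c))
    (hX.chw h3 hM hnM (hMa c)) (hY.chw h3 hM hnM (hMa c))
  choose f f0 hf hf0 hval using key
  refine ⟨SC ι X a f, SC ι Y a f0, SC_VVy hX ha hf, SC_VVy hY ha hf0, ?_⟩
  intro L Ω hL Γ _ v hv
  have hval' := fun c => hval c L Ω hL Γ v hv (thI_ley hX (a c))
  have hΩ : v Ω ^ (r + 1) ≠ 0 := pow_ne_zero _ ((Valuation.ne_zero_iff _).2 hL.ne)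
  constructor
  · unfold SC
    refine v.map_sum_le fun c _ => ?_
    obtain ⟨r1, r2⟩ := v_gIy (ι := ι) hX hY hv ha c
    rw [map_mul, r1, one_mul]
    exact (hval' c).1
  · intro hXY
    unfold SC
    rw [← Finset.sum_sub_distrib]
    refine v.map_sum_lt hΩ fun c _ => ?_
    obtain ⟨r1, r2⟩ := v_gIy (ι := ι) hX hY hv ha c
    have h4 := (hval' c).2 (thI_lty hXY (a c))
    have h0 : v (f0 c 1) ≤ v Ω ^ (r + 1) := by
      have e : f0 c 1 = f c 1 - (f c 1 - f0 c 1) := by ring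
      rw [e]
      exact (v.map_sub _ _).trans (max_le (hval' c).1 h4.le)
    have e : (gI ι X 1 (a c))⁻¹ * f c 1 - (gI ι Y 1 (a c))⁻¹ * f0 c 1 =
        (gI ι X 1 (a c))⁻¹ * (f c 1 - f0 c 1) +
        ((gI ι X 1 (a c))⁻¹ - (gI ι Y 1 (a c))⁻¹) * f0 c 1 := by
      ring
    rw [e]
    refine (v.map_add _ _).trans_lt (max_lt ?_ ?_)
    · rw [map_mul, r1, one_mul]
      exact h4
    · rw [map_mul]
      calc _ ≤ v ((gI ι X 1 (a c))⁻¹ - (gI ι Y 1 (a c))⁻¹) * v Ω ^ (r + 1) := by gcongr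
        _ < 1 * v Ω ^ (r + 1) := mul_lt_mul_of_pos_right (r2 hXY) (zero_lt_iff.2 hΩ)
        _ = v Ω ^ (r + 1) := one_mul _

end Pool.Agent.K7.H56.P
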