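import Pool.Agent.K7.H56.P.D
import Pool.Agent.K7.H56.M.F

/-!
# Quadratic extensions of any field: the value at one
-/

set_option autoImplicit false
set_option linter.unusedSectionVars false

open Complex NumberField IsDedekindDomain
open scoped PeriodPair nonZeroDivisors

namespace Pool.Agent.K7.H56.P

open Pool.Agent.K7.H56
open Pool.Agent.R430
open Pool.Agent.Y696 Pool.Agent.W192.HK Pool.Agent.TH936.CM H667R3
open Pool.Agent.TH936.PU
open Pool.Agent.K7.H70.AS (VV_prod mero_eq2 gI_diff hX1)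
open Pool.Agent.Y688 (NI HL euler mem_RR normSq_RR normSq_lin v_RR v_odd NP)
open Pool.Agent.K7.H56.M

section
variable {N : Type} [Field N] [NumberField N]
variable {n m : ℕ} {X Y : Ideal (𝓞 N) → ℂ} {ι : Pool.Agent.Y688.RR →+* 𝓞 N} {f : ℂ → ℂ}

lemma not_unit_nat {p : ℕ} (hp : 2 ≤ p) : ¬ IsUnit ((p : ℕ) : 𝓞 N) := by
  intro h
  have h1 := h.map (Algebra.norm ℤ)
  have h3 := Algebra.norm_algebraMap_of_basis (RingOfIntegers.basis N) (p : ℤ)
  rw [map_natCast] at h3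
  rw [h3, isUnit_pow_iff] at h1
  · rw [Int.isUnit_iff] at h1
    omega
  · rw [← Module.finrank_eq_card_basis (RingOfIntegers.basis N), RingOfIntegers.rank]
    exact Module.finrank_pos.ne'

omit [NumberField N] in
lemma cop_dvd {I : Ideal (𝓞 N)} (hnm : n ∣ m) (h : IsCoprime I (Ideal.span {(m : 𝓞 N)})) :
    IsCoprime I (Ideal.span {(n : 𝓞 N)}) := by
  rw [Ideal.isCoprime_iff_sup_eq] at h ⊢
  rw [eq_top_iff, ← h]
  refine sup_le_sup_left ?_ _
  rw [Ideal.span_singleton_le_span_singleton]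
  obtain ⟨k, rfl⟩ := hnm
  push_cast
  exact Dvd.intro _ rfl

omit [NumberField N] in
lemma IHmono (h : IH n X) (hnm : n ∣ m) : IH m X where
  mul := h.mul
  top := h.top
  cong α β hd := h.cong α β (by
    obtain ⟨k, rfl⟩ := hnm
    push_cast at hd
    exact (Dvd.intro _ rfl).trans hd)
  val := h.val
  ne I hI := h.ne I (cop_dvd hnm hI)

omit [NumberField N] in
lemma IHprod (hX : IH n X) (hY : IH n Y) : IH n (fun I => X I * Y I) where
  mul I J := by
    simp only [hX.mul, hY.mul]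
    ring
  top := by simp only [hX.top, hY.top, one_mul]
  cong α β h := by simp only [hX.cong α β h, hY.cong α β h]
  val I := by
    rcases hX.val I with h | ⟨k, hk0, hk⟩
    · exact Or.inl (by rw [h, zero_mul])
    rcases hY.val I with h | ⟨l, hl0, hl⟩
    · exact Or.inl (by rw [h, mul_zero])
    refine Or.inr ⟨k * l, mul_ne_zero hk0 hl0, ?_⟩
    rw [mul_pow, pow_mul, hk, one_pow, one_mul, mul_comm k l, pow_mul, hl, one_pow]
  ne I h := mul_ne_zero (hX.ne I h) (hY.ne I h)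

omit [NumberField N] in
lemma X0_ih (n : ℕ) : IH (N := N) n (X0 n) := IGih (IC.ig (X0_ic n))

/-- the weights at the ideals that are not prime to three -/
lemma PN_not3 {I : Ideal (𝓞 N)} (h : ¬ IsCoprime I (Ideal.span {((3 : ℕ) : 𝓞 N)})) :
    PN ι I = 0 := by
  have h1 : I ⊔ Ideal.span {((3 : ℕ) : 𝓞 N)} ≠ ⊤ := fun h2 => h (Ideal.isCoprime_iff_sup_eq.2 h2)
  obtain ⟨Q, hQ, hle⟩ := Ideal.exists_le_maximal _ h1
  have h3 : ((3 : ℕ) : 𝓞 N) ∈ Q := hle (Ideal.mem_sup_right (Ideal.mem_span_singleton_self _))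
  have hQ0 : Q ≠ ⊥ := by
    rintro rfl
    have : ((3 : ℕ) : 𝓞 N) = 0 := (Submodule.mem_bot _).1 h3
    exact absurd this (by norm_num)
  obtain ⟨J, rfl⟩ := Ideal.dvd_iff_le.2 ((le_sup_left : I ≤ _).trans hle)
  rw [PN_mul]
  let v : HeightOneSpectrum (𝓞 N) := ⟨Q, hQ.isPrime, hQ0⟩
  have h4 : PN ι v.asIdeal = 0 := PN_three (by exact_mod_cast h3)
  rw [h4, zero_mul]

lemma gI_three (s : ℂ) (I : Ideal (𝓞 N)) :
    gI ι (fun I => X0 3 I * X I) s I = gI ι X s I := by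
  unfold gI
  by_cases h : IsCoprime I (Ideal.span {((3 : ℕ) : 𝓞 N)})
  · simp only [X0_pos h, one_mul]
  · rw [PN_not3 h]
    ring

lemma VV_three : VV ι (fun I => X0 3 I * X I) f ↔ VV ι X f := by
  constructor
  · intro h
    exact ⟨h.mero, h.an, fun s hs => (h.sum s hs).congr_fun fun I => (gI_three s I.1).symm⟩
  · intro h
    exact ⟨h.mero, h.an, fun s hs => (h.sum s hs).congr_fun fun I => gI_three s I.1⟩

/-- the Euler product -/
lemma VV_prodh (hX : IH n X) (h : VV ι X f) {s : ℂ} (hs : 3 / 2 < s.re) :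
    HasProd (fun v : HeightOneSpectrum (𝓞 N) => (1 - gI ι X s v.asIdeal)⁻¹) (f s) := by
  have h0 := h.sum s hs
  have h1 := euler (g := gI ι X s) (gI_muly hX s) (gI_topy hX s) h0.summable.norm
  rw [h0.tsum_eq] at h1
  exact h1

end

section
variable {N K : Type} [Field N] [NumberField N] [Field K] [NumberField K] [Algebra N K]
  [IsGalois N K]
variable {n : ℕ} {ι : Pool.Agent.Y688.RR →+* 𝓞 N} {X : Gal(K/N) →* ℂˣ}

lemma XR3_ih {a : N} (ha : a ^ 2 = -3) {r : ℕ} (hF : Module.finrank ℚ N = 2 * r)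
    (h2v : ∀ v : HeightOneSpectrum (𝓞 N), (2 : 𝓞 N) ∈ v.asIdeal →
      v.valuation N 2 = WithZero.exp (-1 : ℤ)) (hX : ∀ σ, X σ ^ 2 = 1) {n : ℕ} (hno : Odd n)
    (h3 : 3 ∣ n)
    (hnr : ∀ w : HeightOneSpectrum (𝓞 K), Rm N w → (n : 𝓞 N) ∈ (Pool.Agent.Y688.dn N w).asIdeal) :
    IH n (fun I => X0 3 I * XR X I) := by
  by_cases hex : ∃ w : HeightOneSpectrum (𝓞 K), Rm N w
  · exact IHprod (IHmono (X0_ih 3) h3) (IGih (XR_ig ha hF h2v hX hno hnr hex))
  · have hneg : ∀ I : Ideal (𝓞 N), XR X I = Pool.Agent.R430.XX X I := fun I =>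
      XR_neg (fun ⟨w, hw, _⟩ => hex ⟨w, hw⟩)
    have hbot : ¬ IsCoprime (⊥ : Ideal (𝓞 N)) (Ideal.span {((3 : ℕ) : 𝓞 N)}) := by
      rw [Ideal.isCoprime_iff_sup_eq, bot_sup_eq, Ideal.span_singleton_eq_top]
      exact not_unit_nat (by norm_num)
    have h0 : ∀ I : Ideal (𝓞 N), X0 3 I ≠ 0 → I ≠ ⊥ := by
      rintro I hI rfl
      exact hI (X0_neg hbot)
    refine ⟨fun I J => ?_, ?_, fun α β h => ?_, fun I => ?_, fun I hI => ?_⟩
    · simp only [hneg, (X0_ic (N := N) 3).mul]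
      by_cases h1 : X0 3 I = 0
      · rw [h1]
        ring
      by_cases h2 : X0 3 J = 0
      · rw [h2]
        ring
      rw [XX_mul X (h0 I h1) (h0 J h2)]
      ring
    · simp only [hneg, (X0_ic (N := N) 3).top, XX_top', one_mul]
    · simp only [hneg]
      have h4 := (IHmono (X0_ih (N := N) 3) h3).cong α β h
      rw [h4]
      by_cases h1 : X0 3 (Ideal.span {β}) = 0
      · rw [h1, zero_mul, zero_mul]
      have hβ : β ≠ 0 := fun hb => h0 _ h1 (by rw [hb]; exact Ideal.span_singleton_eq_bot.2 rfl)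
      have hα : α ≠ 0 := fun hb => h0 _ (h4 ▸ h1) (by rw [hb]; exact Ideal.span_singleton_eq_bot.2 rfl)
      rw [XX_one ha hF h2v X hX hno hnr hα (fun w hw => absurd ⟨w, hw⟩ hex),
        XX_one ha hF h2v X hX hno hnr hβ (fun w hw => absurd ⟨w, hw⟩ hex)]
    · simp only [hneg]
      rcases (X0_ih (N := N) 3).val I with h1 | ⟨k, hk0, hk⟩
      · exact Or.inl (by rw [h1, zero_mul])
      · refine Or.inr ⟨k * 2, mul_ne_zero hk0 two_ne_zero, ?_⟩
        have h5 : Pool.Agent.R430.XX X I ^ 2 = 1 := by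
          rcases XX_sq X hX I with h | h
          · rw [h, one_pow]
          · rw [h]; norm_num
        rw [mul_pow, pow_mul, hk, one_pow, one_mul, mul_comm k 2, pow_mul, h5, one_pow]
    · simp only [hneg]
      exact mul_ne_zero ((IHmono (X0_ih (N := N) 3) h3).ne I hI) (XX_ne0 hX)

/-- the factorization of the `L`-function -/
theorem L_prod3 (h2 : Module.finrank N K = 2) (hX : ∀ σ, σ ≠ 1 → X σ = -1)
    (hodd : ∀ w : HeightOneSpectrum (𝓞 K), Rm N w → (2 : 𝓞 N) ∉ (Pool.Agent.Y688.dn N w).asIdeal)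
    {F f g : ℂ → ℂ} (hF : VV ((algebraMap (𝓞 N) (𝓞 K)).comp ι) (X0 1) F) (hf : VV ι (X0 1) f)
    (hig : IH n (fun I => X0 3 I * XR X I)) (hg : VV ι (fun I => X0 3 I * XR X I) g) :
    F 1 = f 1 * g 1 := by
  classical
  refine mero_eq2 (g := fun s => f s * g s) hF.mero (fun z hz => (hf.mero z hz).mul (hg.mero z hz))
    ?_ hF.an (hf.an.mul hg.an)
  intro s hs
  have k1 := VV_prod (X0_ic 1) hF hs
  have k0 := VV_prodh hig hg hs
  simp only [gI_three] at k0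
  have k2 := (VV_prod (X0_ic 1) hf hs).mul k0
  have k3 : HasProd (fun x : (Σ P : HeightOneSpectrum (𝓞 N),
      {w : HeightOneSpectrum (𝓞 K) // und w = P}) =>
      (1 - gI ((algebraMap (𝓞 N) (𝓞 K)).comp ι) (X0 1) s x.2.1.asIdeal)⁻¹) (F s) :=
    ((Equiv.sigmaFiberEquiv (und (F := N) (K := K))).hasProd_iff (f := fun w : HeightOneSpectrum (𝓞 K) =>
      (1 - gI ((algebraMap (𝓞 N) (𝓞 K)).comp ι) (X0 1) s w.asIdeal)⁻¹)).2 k1
  have k4 : HasProd (fun P : HeightOneSpectrum (𝓞 N) =>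
      ∏ w : {w : HeightOneSpectrum (𝓞 K) // und w = P},
      (1 - gI ((algebraMap (𝓞 N) (𝓞 K)).comp ι) (X0 1) s w.1.asIdeal)⁻¹) (F s) :=
    k3.sigma fun P => hasProd_fintype _
  refine k4.unique (k2.congr_fun fun P => ?_)
  rw [Finset.prod_inv_distrib, fib h2 hX hodd s P, mul_inv]

/-- **the value at one over a quadratic extension** of any field unramified at two. -/
theorem quad_gen {d : ℕ} (hd : Module.finrank ℚ N = 2 * d) (hU : Unr2 N)
    (h2 : Module.finrank N K = 2) {n : ℕ} (hn : Odd n)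
    (hnr : ∀ w : HeightOneSpectrum (𝓞 K), Rm N w → (n : 𝓞 N) ∈ (Pool.Agent.Y688.dn N w).asIdeal)
    {f F : ℂ → ℂ} (hf : VV ι (X0 1) f) (hF : VV ((algebraMap (𝓞 N) (𝓞 K)).comp ι) (X0 1) F)
    {L : PeriodPair} {Ω : ℂ} (hL : HL L Ω) {Γ : Type} [LinearOrderedCommGroupWithZero Γ]
    {v : Valuation ℂ Γ} (hv : v 2 < 1) :
    v (f 1) ≤ v Ω ^ d ∧ v (F 1) ≤ v Ω ^ (2 * d) ∧
    ((∀ w : HeightOneSpectrum (𝓞 K), Rm N w → (3 : 𝓞 N) ∉ (Pool.Agent.Y688.dn N w).asIdeal →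
      ∀ x : 𝓞 N, x ^ 3 - 2 ∉ (Pool.Agent.Y688.dn N w).asIdeal) →
      (v (F 1) = v Ω ^ (2 * d) ↔ v (f 1) = v Ω ^ d)) ∧
    ((∃ w : HeightOneSpectrum (𝓞 K), Rm N w ∧ (3 : 𝓞 N) ∉ (Pool.Agent.Y688.dn N w).asIdeal ∧
      ∃ x : 𝓞 N, x ^ 3 - 2 ∈ (Pool.Agent.Y688.dn N w).asIdeal) → v (F 1) < v Ω ^ (2 * d)) := by
  classical
  -- the modulus
  set m : ℕ := 3 * n with hm
  have hmo : Odd m := Odd.mul (by decide) hn
  have hmr : ∀ w : HeightOneSpectrum (𝓞 K), Rm N w → (m : 𝓞 N) ∈ (Pool.Agent.Y688.dn N w).asIdeal := by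
    intro w hw
    rw [hm, Nat.cast_mul]
    exact Ideal.mul_mem_left _ _ (hnr w hw)
  have hm0 : (m : 𝓞 N) ≠ 0 := by
    obtain ⟨k, hk⟩ := hmo
    have : m ≠ 0 := by omega
    exact_mod_cast this
  have h2m : ∀ P : HeightOneSpectrum (𝓞 N), (m : 𝓞 N) ∈ P.asIdeal → (2 : 𝓞 N) ∉ P.asIdeal := by
    intro P hP h2P
    obtain ⟨k, hk⟩ := hmo
    apply P.isPrime.ne_top
    rw [Ideal.eq_top_iff_one]
    have : (1 : 𝓞 N) = (m : 𝓞 N) - 2 * (k : 𝓞 N) := by
      rw [hk]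
      push_cast
      ring
    rw [this]
    exact Ideal.sub_mem _ hP (Ideal.mul_mem_right _ _ h2P)
  have hodd : ∀ w : HeightOneSpectrum (𝓞 K), Rm N w →
      (2 : 𝓞 N) ∉ (Pool.Agent.Y688.dn N w).asIdeal := fun w hw => h2m _ (hmr w hw)
  -- the character
  have hcard : Nat.card Gal(K/N) = 2 := by rw [IsGalois.card_aut_eq_finrank, h2]
  obtain ⟨σ0, hσ0⟩ : ∃ σ : Gal(K/N), σ ≠ 1 := by
    by_contra hcon
    push Not at hcon
    have : Subsingleton Gal(K/N) := ⟨fun a b => by rw [hcon a, hcon b]⟩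
    rw [Nat.card_unique] at hcard
    omega
  obtain ⟨X, hX0⟩ := exists_char' (comm2 h2) hσ0
  have hXsq : ∀ σ, X σ ^ 2 = 1 := fun σ => by rw [← map_pow, pow_two, sq2 h2, map_one]
  have hX : ∀ σ, σ ≠ 1 → X σ = -1 := by
    intro σ hσ
    rcases eq_one_or h2 hσ0 σ with h | h
    · exact absurd h hσ
    · rw [h]
      have h5 := hXsq σ0
      have h6 : ((X σ0 : ℂˣ) : ℂ) ^ 2 = 1 := by rw [← Units.val_pow_eq_pow_val, h5, Units.val_one]
      have h7 : (((X σ0 : ℂˣ) : ℂ) - 1) * (((X σ0 : ℂˣ) : ℂ) + 1) = 0 := by linear_combination h6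
      rcases mul_eq_zero.1 h7 with h8 | h8
      · exact absurd (Units.ext (by rw [Units.val_one]; exact sub_eq_zero.1 h8)) hX0
      · exact Units.ext (by rw [Units.val_neg, Units.val_one]; exact eq_neg_of_add_eq_zero_left h8)
  obtain ⟨a, ha⟩ := exists_rt ι
  have hig := XR3_ih (K := K) (X := X) ha hd (fun v hv => hU v (by exact_mod_cast hv)) hXsq hmo
    ⟨n, hm⟩ hmr
  have hig' : IH m (fun I => X0 3 I * YR (N := N) K I) :=
    IHprod (IHmono (X0_ih 3) ⟨n, hm⟩) (IGih (YR_ig hmr))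
  obtain ⟨g, g0, hg, hg0, hval⟩ := core_gen2 N ι d hd hU m _ _ hig hig' hmo
  obtain ⟨f', f0, hf', hf0, hvalf⟩ := core_gen2 N ι d hd hU 1 (X0 1) (X0 1) (X0_ih 1) (X0_ih 1) odd_one
  have hff : f 1 = f' 1 := mero_eq2 hf.mero hf'.mero
    (fun s hs => (hf.sum s hs).unique (hf'.sum s hs)) hf.an hf'.an
  have hfin := SR_fin hm0 hmr
  have e1 := L_prod3 h2 hX hodd hF hf hig hg
  have e2 := YR_val hmr hfin (VV_three.1 hg0) hf
  have hXY : ∀ I : Ideal (𝓞 N), v (X0 3 I * XR X I - X0 3 I * YR K I) < 1 := by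
    intro I
    rw [← mul_sub, map_mul]
    have h4 : v (XR X I - YR K I) < 1 := by
      by_cases h5 : ∃ w : HeightOneSpectrum (𝓞 K), Rm N w ∧ I ≤ (Pool.Agent.Y688.dn N w).asIdeal
      · rw [XR_pos h5, YR_pos h5, sub_zero, map_zero]
        exact zero_lt_one
      · rw [XR_neg h5, YR_neg h5]
        refine Pool.Agent.Y688.v_sub_one hv 1 ?_
        rcases XX_sq X hXsq I with h | h
        · rw [h, one_pow]
        · rw [h]; norm_num
    calc _ ≤ 1 * v (XR X I - YR K I) := by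
          gcongr
          exact vX_le (X0_ih 3) I
      _ = v (XR X I - YR K I) := one_mul _
      _ < 1 := h4
  obtain ⟨v1, v2⟩ := hval L Ω hL Γ v hv
  have v2 := v2 hXY
  obtain ⟨v3, -⟩ := hvalf L Ω hL Γ v hv
  rw [← hff] at v3
  have hΩ : v Ω ^ d ≠ 0 := pow_ne_zero _ ((Valuation.ne_zero_iff _).2 hL.ne)
  have hΩp : 0 < v Ω ^ d := zero_lt_iff.2 hΩ
  have v4 : v (∏ P ∈ hfin.toFinset, (1 - gI ι (X0 1) 1 P.asIdeal)) ≤ 1 := by
    rw [map_prod]
    refine Finset.prod_le_one' fun P hP => ?_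
    obtain ⟨w, hw, rfl⟩ := hfin.mem_toFinset.1 hP
    exact gI_int hv (hodd w hw)
  refine ⟨v3, ?_, fun hgood => ?_, ?_⟩
  · rw [e1, map_mul, two_mul, pow_add]
    exact mul_le_mul' v3 v1
  · have v5 : v (∏ P ∈ hfin.toFinset, (1 - gI ι (X0 1) 1 P.asIdeal)) = 1 := by
      rw [map_prod]
      refine Finset.prod_eq_one fun P hP => ?_
      obtain ⟨w, hw, rfl⟩ := hfin.mem_toFinset.1 hP
      by_cases h3 : (3 : 𝓞 N) ∈ (Pool.Agent.Y688.dn N w).asIdeal
      · have : gI ι (X0 1) 1 (Pool.Agent.Y688.dn N w).asIdeal = 0 := by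
          unfold gI
          rw [PN_three h3, mul_zero, zero_mul]
        rw [this, sub_zero, map_one]
      · exact good_I hv (hgood w hw h3)
    have v6 : v (g0 1) = v (f 1) := by rw [e2, map_mul, v5, one_mul]
    have v7 : v (g 1) = v Ω ^ d ↔ v (f 1) = v Ω ^ d := by
      constructor
      · intro h
        rw [← v6]
        have e : g0 1 = g 1 - (g 1 - g0 1) := by ring
        rw [e, v.map_sub_eq_of_lt_left (by rwa [h]), h]
      · intro h
        rw [← v6] at h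
        have e : g 1 = g0 1 + (g 1 - g0 1) := by ring
        rw [e, v.map_add_eq_of_lt_left (by rwa [h]), h]
    rw [e1, map_mul, two_mul, pow_add]
    constructor
    · intro h
      refine le_antisymm v3 ?_
      by_contra hlt
      push Not at hlt
      have : v (f 1) * v (g 1) < v Ω ^ d * v Ω ^ d := by
        calc v (f 1) * v (g 1) ≤ v (f 1) * v Ω ^ d := by gcongr
          _ < v Ω ^ d * v Ω ^ d := mul_lt_mul_of_pos_right hlt hΩp
      rw [h] at this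
      exact lt_irrefl _ this
    · intro h
      rw [h, v7.2 h]
  · rintro ⟨w0, hw0, h3, x, hx⟩
    have v5 : v (∏ P ∈ hfin.toFinset, (1 - gI ι (X0 1) 1 P.asIdeal)) < 1 := by
      have hmem : Pool.Agent.Y688.dn N w0 ∈ hfin.toFinset := hfin.mem_toFinset.2 ⟨w0, hw0, rfl⟩
      rw [← Finset.mul_prod_erase _ _ hmem, map_mul, map_prod]
      have b1 : v (1 - gI ι (X0 1) 1 (Pool.Agent.Y688.dn N w0).asIdeal) < 1 :=
        bad_I hv (hodd w0 hw0) h3 hx
      have b2 : ∏ P ∈ hfin.toFinset.erase (Pool.Agent.Y688.dn N w0),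
          v (1 - gI ι (X0 1) 1 P.asIdeal) ≤ 1 := by
        refine Finset.prod_le_one' fun P hP => ?_
        obtain ⟨w, hw, rfl⟩ := hfin.mem_toFinset.1 (Finset.mem_of_mem_erase hP)
        exact gI_int hv (hodd w hw)
      calc _ ≤ v (1 - gI ι (X0 1) 1 (Pool.Agent.Y688.dn N w0).asIdeal) * 1 := by gcongr
        _ = _ := mul_one _
        _ < 1 := b1
    have v6 : v (g0 1) < v Ω ^ d := by
      rw [e2, map_mul]
      calc _ ≤ v (∏ P ∈ hfin.toFinset, (1 - gI ι (X0 1) 1 P.asIdeal)) * v Ω ^ d := by gcongr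
        _ < 1 * v Ω ^ d := mul_lt_mul_of_pos_right v5 hΩp
        _ = _ := one_mul _
    have v7 : v (g 1) < v Ω ^ d := by
      have e : g 1 = (g 1 - g0 1) + g0 1 := by ring
      rw [e]
      exact (v.map_add _ _).trans_lt (max_lt v2 v6)
    rw [e1, map_mul, two_mul, pow_add]
    calc v (f 1) * v (g 1) ≤ v Ω ^ d * v (g 1) := by gcongr
      _ < v Ω ^ d * v Ω ^ d := mul_lt_mul_of_pos_left v7 hΩp

end

end Pool.Agent.K7.H56.P
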