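import Pool.Agent.K7.H56.P.E

/-!
# The value at one over a Galois extension of 2-power degree of any field
-/

set_option autoImplicit false
set_option linter.unusedSectionVars false

open NumberField IsDedekindDomain WithZero

namespace Pool.Agent.K7.H56.P

open Pool.Agent.K7.H56
open Pool.Agent.R430
open Pool.Agent.Y696
open Pool.Agent.K7.H56.M
open Pool.Agent.K7.H70.AS (ram_mul gal2' exists_mid VV_prod mero_eq2 nc_of_tower NC)
open Pool.Agent.Y688 (HL)

/-- unramified at the primes, not over three, modulo which two is a cube -/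
def Gd (F K : Type) [Field F] [NumberField F] [Field K] [NumberField K] [Algebra F K] : Prop :=
  ∀ (v₀ : HeightOneSpectrum (𝓞 F)) (v : HeightOneSpectrum (𝓞 K)), v.asIdeal.LiesOver v₀.asIdeal →
    (3 : 𝓞 F) ∉ v₀.asIdeal →
    (∃ x : 𝓞 F, x ^ 3 - 2 ∈ v₀.asIdeal) → v₀.asIdeal.ramificationIdx' v.asIdeal = 1

section tower
variable {F N K : Type} [Field F] [NumberField F] [Field N] [NumberField N] [Field K] [NumberField K]
  [Algebra F N] [Algebra N K] [Algebra F K] [IsScalarTower F N K]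

lemma gd_bot (h : Gd F K) : Gd F N := by
  intro v₀ P hlo h3 hx
  obtain ⟨w, hw⟩ := exists_above (K := K) P
  have hlo' : w.asIdeal.LiesOver v₀.asIdeal := Ideal.LiesOver.trans w.asIdeal P.asIdeal v₀.asIdeal
  have he := h v₀ w hlo' h3 hx
  rw [ram_mul hlo hw] at he
  exact Nat.eq_one_of_mul_eq_one_right he

lemma gd_top (hNC : NC F N) (h : Gd F K) : Gd N K := by
  intro P w hw h3 ⟨x, hx⟩
  let v₀ : HeightOneSpectrum (𝓞 F) := ⟨P.asIdeal.under (𝓞 F), inferInstance, by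
    intro h
    exact P.ne_bot (Ideal.eq_bot_of_comap_eq_bot h)⟩
  have hlo : P.asIdeal.LiesOver v₀.asIdeal := ⟨rfl⟩
  have hlo' : w.asIdeal.LiesOver v₀.asIdeal := Ideal.LiesOver.trans w.asIdeal P.asIdeal v₀.asIdeal
  have h3' : (3 : 𝓞 F) ∉ v₀.asIdeal := fun h => h3 (by
    have := (mem_under_of_lies hlo (3 : 𝓞 F)).1 h
    rwa [map_ofNat] at this)
  have hx' : ∃ x : 𝓞 F, x ^ 3 - 2 ∈ v₀.asIdeal := by
    by_contra hcon
    push Not at hcon
    exact hNC P hcon x hx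
  have he := h v₀ w hlo' h3' hx'
  rw [ram_mul hlo hw] at he
  exact Nat.eq_one_of_mul_eq_one_left he

end tower

section
variable {F K : Type} [Field F] [NumberField F] [Field K] [NumberField K] [Algebra F K]
  [IsGalois F K]

lemma gd_rm (h : Gd F K) {w : HeightOneSpectrum (𝓞 K)} (hw : Rm F w)
    (h3 : (3 : 𝓞 F) ∉ (Pool.Agent.Y688.dn F w).asIdeal) (x : 𝓞 F) :
    x ^ 3 - 2 ∉ (Pool.Agent.Y688.dn F w).asIdeal := by
  intro hx
  obtain ⟨σ, hσ, hin⟩ := hw
  apply hσ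
  have hlo : w.asIdeal.LiesOver (Pool.Agent.Y688.dn F w).asIdeal := ⟨rfl⟩
  have he := h _ w hlo h3 ⟨x, hx⟩
  rw [Ideal.ramificationIdx'_eq_ramificationIdx _ _ (Pool.Agent.Y688.dn F w).ne_bot] at he
  exact unr_g w (Algebra.isUnramifiedAt_iff_of_isDedekindDomain.2 he) hin

/-- the condition in terms of inertia groups -/
lemma gd_of (h : ∀ w : HeightOneSpectrum (𝓞 K), Rm F w →
    (3 : 𝓞 F) ∉ (Pool.Agent.Y688.dn F w).asIdeal →
    ∀ x : 𝓞 F, x ^ 3 - 2 ∉ (Pool.Agent.Y688.dn F w).asIdeal) : Gd F K := by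
  intro v₀ v hlo h3 ⟨x, hx⟩
  refine ram_one hlo fun σ hσ => ?_
  by_contra hne
  have e : Pool.Agent.Y688.dn F v = v₀ := HeightOneSpectrum.ext hlo.over.symm
  exact h v ⟨σ, hne, hσ⟩ (by rwa [e]) x (by rwa [e])

end

section deg1
variable {F M : Type} [Field F] [NumberField F] [Field M] [NumberField M] [Algebra F M]
variable {ι : Pool.Agent.Y688.RR →+* 𝓞 F}

lemma surj_one (h : Module.finrank F M = 1) : Function.Surjective (algebraMap (𝓞 F) (𝓞 M)) := by
  intro x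
  have h1 := Subalgebra.bot_eq_top_of_finrank_eq_one h
  have h2 : (x : M) ∈ (⊥ : Subalgebra F M) := by rw [h1]; exact Algebra.mem_top
  obtain ⟨y, hy⟩ := Algebra.mem_bot.1 h2
  have h3 : IsIntegral ℤ y := by
    have h4 : IsIntegral ℤ (algebraMap F M y) := by
      rw [hy]
      exact x.2
    exact (isIntegral_algebraMap_iff (algebraMap F M).injective).1 h4
  refine ⟨⟨y, h3⟩, ?_⟩
  apply RingOfIntegers.ext
  exact hy

/-- extensions of degree one -/
lemma VV_deg1 (h : Module.finrank F M = 1) {f g : ℂ → ℂ} (hf : VV ι (X0 1) f)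
    (hg : VV ((algebraMap (𝓞 F) (𝓞 M)).comp ι) (X0 1) g) : g 1 = f 1 := by
  have hs := surj_one h
  refine mero_eq2 hg.mero hf.mero (fun s hsr => ?_) hg.an hf.an
  have k1 := VV_prod (X0_ic 1) hg hsr
  have k2 := VV_prod (X0_ic 1) hf hsr
  have hinj : Function.Injective (und (F := F) (K := M)) := by
    intro a b hab
    have h1 : a.asIdeal.comap (algebraMap (𝓞 F) (𝓞 M)) = b.asIdeal.comap (algebraMap (𝓞 F) (𝓞 M)) :=
      congrArg HeightOneSpectrum.asIdeal hab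
    exact HeightOneSpectrum.ext (Ideal.comap_injective_of_surjective _ hs h1)
  have hsur : Function.Surjective (und (F := F) (K := M)) := fun v =>
    Pool.Agent.Y688.dn_surj (K := M) v
  have hnk : ∀ w : HeightOneSpectrum (𝓞 M), nK w = nK (und (F := F) w) ^ 1 := by
    intro w
    rw [pow_one, ← card_nm, ← card_nm]
    let f : (𝓞 F ⧸ (und (F := F) w).asIdeal) →+* (𝓞 M ⧸ w.asIdeal) :=
      Ideal.quotientMap w.asIdeal (algebraMap (𝓞 F) (𝓞 M)) le_rfl
    refine (Nat.card_congr (Equiv.ofBijective f ⟨?_, ?_⟩)).symm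
    · exact Ideal.quotientMap_injective
    · exact Ideal.quotientMap_surjective hs
  refine k1.unique ?_
  have k3 := (Equiv.ofBijective _ ⟨hinj, hsur⟩).hasProd_iff.2 k2
  refine k3.congr_fun fun w => ?_
  simp only [Function.comp_apply]
  rw [gI_over (ι := ι) (P := und w) (w := w) rfl (hnk w) s, pow_one]
  rfl

end deg1

section
variable {F K : Type} [Field F] [NumberField F] [Field K] [NumberField K] [Algebra F K]
  [IsGalois F K]

/-- **the tower, if the ramified primes are good** -/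
theorem tower_good (ι : Pool.Agent.Y688.RR →+* 𝓞 F) {r : ℕ} (hr : Module.finrank F K = 2 ^ r)
    (hU : Unr2 K) (hG : Gd F K) {d : ℕ} (hd : Module.finrank ℚ F = 2 * d)
    {f : ℂ → ℂ} (hf : VV ι (X0 1) f)
    {L : PeriodPair} {Ω : ℂ} (hL : HL L Ω) {Γ : Type} [LinearOrderedCommGroupWithZero Γ]
    {v : Valuation ℂ Γ} (hv : v 2 < 1) (n : ℕ) :
    ∀ (M : Type) [Field M] [NumberField M] [Algebra F M], (M →ₐ[F] K) →
      Module.finrank F M = 2 ^ n →
      ∀ g : ℂ → ℂ, VV ((algebraMap (𝓞 F) (𝓞 M)).comp ι) (X0 1) g →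
        (v (g 1) = v Ω ^ (d * 2 ^ n) ↔ v (f 1) = v Ω ^ d) := by
  induction n with
  | zero =>
    intro M _ _ _ φ h1 g hg
    rw [pow_zero] at h1
    rw [pow_zero, mul_one, VV_deg1 h1 hf hg]
  | succ m ih =>
    intro M _ _ _ φ h1 g hg
    obtain ⟨N, h2, h3⟩ := exists_mid (K := K) h1 hr φ
    let _ : Algebra M K := φ.toRingHom.toAlgebra
    have hFMK : IsScalarTower F M K :=
      IsScalarTower.of_algebraMap_eq fun x => (φ.commutes x).symm
    have hGM : Gd F M := gd_bot (K := K) hG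
    have hUM : Unr2 M := unr2_down (F := M) (K := K) hU
    let _ : Algebra N K := (φ.comp N.val).toRingHom.toAlgebra
    have hFNK : IsScalarTower F N K :=
      IsScalarTower.of_algebraMap_eq fun x => ((φ.comp N.val).commutes x).symm
    have hNC : NC F N := nc_of_tower (K := K) hr
    have hGN : Gd N M := gd_top (F := F) hNC hGM
    have hUN : Unr2 N := unr2_down (F := N) (K := K) hU
    have hgal : IsGalois N M := gal2' h3
    have hdN : Module.finrank ℚ N = 2 * (d * 2 ^ m) := by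
      rw [← Module.finrank_mul_finrank ℚ F N, hd, h2, mul_assoc]
    have hcomp : (algebraMap (𝓞 N) (𝓞 M)).comp ((algebraMap (𝓞 F) (𝓞 N)).comp ι) =
        (algebraMap (𝓞 F) (𝓞 M)).comp ι := by
      rw [← RingHom.comp_assoc]
      congr 1
    obtain ⟨fN, fN0, hfN, hfN0, -⟩ := core_gen2 N ((algebraMap (𝓞 F) (𝓞 N)).comp ι) _ hdN hUN 1
      (X0 1) (X0 1) (X0_ih 1) (X0_ih 1) odd_one
    have h4 := ih N (φ.comp N.val) h2 fN hfN
    obtain ⟨k, hk, hkr⟩ := exists_odd (F := N) hUM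
    have h5 := (quad_gen (N := N) (K := M) hdN hUN h3 hk hkr hfN (by rw [hcomp]; exact hg) hL hv).2.2.1
      (fun w hw h3 x => gd_rm hGN hw h3 x)
    rw [← h4, ← h5]
    have e : d * 2 ^ (m + 1) = 2 * (d * 2 ^ m) := by
      rw [pow_succ]
      ring
    rw [e]

/-- **the tower, if a bad prime is ramified** -/
theorem tower_bad (ι : Pool.Agent.Y688.RR →+* 𝓞 F) {r : ℕ} (hr : Module.finrank F K = 2 ^ r)
    (hU : Unr2 K) {d : ℕ} (hd : Module.finrank ℚ F = 2 * d)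
    {w : HeightOneSpectrum (𝓞 K)} (hw : Rm F w)
    (h3 : (3 : 𝓞 F) ∉ (Pool.Agent.Y688.dn F w).asIdeal) {x : 𝓞 F}
    (hx : x ^ 3 - 2 ∈ (Pool.Agent.Y688.dn F w).asIdeal)
    {g : ℂ → ℂ} (hg : VV ((algebraMap (𝓞 F) (𝓞 K)).comp ι) (X0 1) g)
    {L : PeriodPair} {Ω : ℂ} (hL : HL L Ω) {Γ : Type} [LinearOrderedCommGroupWithZero Γ]
    {v : Valuation ℂ Γ} (hv : v 2 < 1) : v (g 1) < v Ω ^ (d * 2 ^ r) := by
  obtain ⟨σ, hσ, hin⟩ := hw
  obtain ⟨N, m, rfl, h1, h2, hR⟩ := exists_top hr hσ hin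
  have hUN : Unr2 N := unr2_down hU
  obtain ⟨n, hn, hnr⟩ := exists_odd (F := N) hU
  have hcomp : (algebraMap (𝓞 N) (𝓞 K)).comp ((algebraMap (𝓞 F) (𝓞 N)).comp ι) =
      (algebraMap (𝓞 F) (𝓞 K)).comp ι := by
    rw [← RingHom.comp_assoc]
    congr 1
  have hdN : Module.finrank ℚ N = 2 * (d * 2 ^ m) := by
    rw [← Module.finrank_mul_finrank ℚ F N, hd, h1, mul_assoc]
  obtain ⟨fN, fN0, hfN, hfN0, -⟩ := core_gen2 N ((algebraMap (𝓞 F) (𝓞 N)).comp ι) _ hdN hUN 1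
    (X0 1) (X0 1) (X0_ih 1) (X0_ih 1) odd_one
  have e : d * 2 ^ (m + 1) = 2 * (d * 2 ^ m) := by
    rw [pow_succ]
    ring
  rw [e]
  refine (quad_gen (N := N) (K := K) hdN hUN h2 hn hnr hfN (by rw [hcomp]; exact hg) hL hv).2.2.2
    ⟨w, hR, ?_, algebraMap (𝓞 F) (𝓞 N) x, ?_⟩
  · intro h
    apply h3
    change algebraMap (𝓞 N) (𝓞 K) 3 ∈ w.asIdeal at h
    change algebraMap (𝓞 F) (𝓞 K) 3 ∈ w.asIdeal
    rw [map_ofNat] at h ⊢
    exact h
  · change algebraMap (𝓞 N) (𝓞 K) _ ∈ w.asIdeal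
    rw [← map_pow, ← map_ofNat (algebraMap (𝓞 F) (𝓞 N)) 2, ← map_sub]
    exact hx

end

end Pool.Agent.K7.H56.P
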